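import Mathlib
import Pool.Agent.Helper28.NT.Defs

/-!
# NT block L1: the discriminant curve stays smooth over larger fields
-/

set_option autoImplicit false

namespace Pool.Agent.NT28

open Matrix

universe u

section maps

variable {R S : Type*} [CommRing R] [CommRing S]

lemma qm_map (φ : R →+* S) (Q : Fin 3 → Matrix (Fin 3) (Fin 3) R) (e : Fin 3 → R) :
    (qm Q e).map φ = qm (fun i => (Q i).map φ) (fun i => φ (e i)) := by
  ext a b
  simp [qm, Matrix.sum_apply, Fin.sum_univ_three]

lemma dl_map (φ : R →+* S) (Q : Fin 3 → Matrix (Fin 3) (Fin 3) R) (e : Fin 3 → R) :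
    φ (dl Q e) = dl (fun i => (Q i).map φ) (fun i => φ (e i)) := by
  unfold dl
  rw [RingHom.map_det, ← qm_map]
  rfl

lemma gr_map (φ : R →+* S) (Q : Fin 3 → Matrix (Fin 3) (Fin 3) R) (e : Fin 3 → R) (i : Fin 3) :
    φ (gr Q e i) = gr (fun i => (Q i).map φ) (fun i => φ (e i)) i := by
  unfold gr
  rw [← qm_map]
  have h1 : ((qm Q e).adjugate * Q i).map φ = ((qm Q e).map φ).adjugate * (Q i).map φ := by
    rw [Matrix.map_mul]
    congr 1
    exact RingHom.map_adjugate φ (qm Q e)
  rw [← h1]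
  simp only [Matrix.trace, Fin.sum_univ_three, Matrix.diag_apply, Matrix.map_apply, map_add]

lemma qm_smul (Q : Fin 3 → Matrix (Fin 3) (Fin 3) R) (c : R) (e : Fin 3 → R) :
    qm Q (fun i => c * e i) = c • qm Q e := by
  unfold qm
  rw [Finset.smul_sum]
  refine Finset.sum_congr rfl fun i _ => ?_
  rw [mul_smul]

lemma dl_smul (Q : Fin 3 → Matrix (Fin 3) (Fin 3) R) (c : R) (e : Fin 3 → R) :
    dl Q (fun i => c * e i) = c ^ 3 * dl Q e := by
  unfold dl
  rw [qm_smul, Matrix.det_smul, Fintype.card_fin]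

lemma gr_smul (Q : Fin 3 → Matrix (Fin 3) (Fin 3) R) (c : R) (e : Fin 3 → R) (i : Fin 3) :
    gr Q (fun i => c * e i) i = c ^ 2 * gr Q e i := by
  unfold gr
  rw [qm_smul, Matrix.adjugate_smul, Fintype.card_fin, Matrix.smul_mul, Matrix.trace_smul, smul_eq_mul]

end maps

/-- The equations with coefficients in `k` which hold at a point over `L` hold at a point over `k`. -/
theorem exists_spec {k L σ : Type*} [Finite σ] [Field k] [IsAlgClosed k] [Field L] [Algebra k L]
    (e : σ → L) : ∃ e' : σ → k, ∀ P : MvPolynomial σ k, MvPolynomial.aeval e P = 0 →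
      MvPolynomial.eval e' P = 0 := by
  set I : Ideal (MvPolynomial σ k) := RingHom.ker (MvPolynomial.aeval e : MvPolynomial σ k →ₐ[k] L)
  have hI : I.IsPrime := RingHom.ker_isPrime _
  have h1 := MvPolynomial.IsPrime.vanishingIdeal_zeroLocus (K := k) I
  have h2 : (MvPolynomial.zeroLocus k I).Nonempty := by
    by_contra h
    rw [Set.not_nonempty_iff_eq_empty] at h
    rw [h, MvPolynomial.vanishingIdeal_empty] at h1
    exact hI.ne_top h1.symm
  obtain ⟨x, hx⟩ := h2
  refine ⟨x, fun P hP => ?_⟩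
  have h3 := (MvPolynomial.mem_zeroLocus_iff.mp hx) P (by
    show P ∈ RingHom.ker (MvPolynomial.aeval e : MvPolynomial σ k →ₐ[k] L)
    rw [RingHom.mem_ker]
    exact hP)
  exact h3

theorem smo_ext {k L : Type*} [Field k] [IsAlgClosed k] [Field L] [Algebra k L]
    {Q : Fin 3 → Matrix (Fin 3) (Fin 3) k} (h : Smo Q) : Smo (ext L Q) := by
  refine ⟨fun i => ?_, fun e he hd => ?_⟩
  · have h1 := h.1 i
    unfold ext
    rw [← Matrix.transpose_map, h1]
  · by_contra hcon
    push Not at hcon
    obtain ⟨i₀, hi₀⟩ : ∃ i, e i ≠ 0 := by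
      by_contra h0
      push Not at h0
      exact he (funext h0)
    obtain ⟨f, hf⟩ : ∃ f : Fin 3 → L, f = fun i => (e i₀)⁻¹ * e i := ⟨_, rfl⟩
    have hfd : dl (ext L Q) f = 0 := by rw [hf, dl_smul, hd, mul_zero]
    have hfg : ∀ i, gr (ext L Q) f i = 0 := fun i => by rw [hf, gr_smul, hcon, mul_zero]
    have hf0 : f i₀ = 1 := by
      rw [hf]
      exact inv_mul_cancel₀ hi₀
    obtain ⟨e', he'⟩ := exists_spec (k := k) f
    have hev : ∀ φ : MvPolynomial (Fin 3) k →ₐ[k] L, (fun i => (ext (MvPolynomial (Fin 3) k) Q i).map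
        (φ : MvPolynomial (Fin 3) k →+* L)) = ext L Q := by
      intro φ
      funext i
      ext a b
      simp [ext]
    have hev' : ∀ φ : MvPolynomial (Fin 3) k →ₐ[k] k, (fun i => (ext (MvPolynomial (Fin 3) k) Q i).map
        (φ : MvPolynomial (Fin 3) k →+* k)) = Q := by
      intro φ
      funext i
      ext a b
      simp [ext]
    have h1 : MvPolynomial.aeval e' (dl (ext (MvPolynomial (Fin 3) k) Q) MvPolynomial.X) = dl Q e' := by
      have h2 := dl_map ((MvPolynomial.aeval e' : MvPolynomial (Fin 3) k →ₐ[k] k) : MvPolynomial (Fin 3) k →+* k)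
        (ext (MvPolynomial (Fin 3) k) Q) MvPolynomial.X
      rw [hev'] at h2
      simpa using h2
    have h1g : ∀ i, MvPolynomial.aeval e' (gr (ext (MvPolynomial (Fin 3) k) Q) MvPolynomial.X i) = gr Q e' i := by
      intro i
      have h2 := gr_map ((MvPolynomial.aeval e' : MvPolynomial (Fin 3) k →ₐ[k] k) : MvPolynomial (Fin 3) k →+* k)
        (ext (MvPolynomial (Fin 3) k) Q) MvPolynomial.X i
      rw [hev'] at h2
      simpa using h2
    have h3 : MvPolynomial.aeval f (dl (ext (MvPolynomial (Fin 3) k) Q) MvPolynomial.X) = dl (ext L Q) f := by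
      have h2 := dl_map ((MvPolynomial.aeval f : MvPolynomial (Fin 3) k →ₐ[k] L) : MvPolynomial (Fin 3) k →+* L)
        (ext (MvPolynomial (Fin 3) k) Q) MvPolynomial.X
      rw [hev] at h2
      simpa using h2
    have h3g : ∀ i, MvPolynomial.aeval f (gr (ext (MvPolynomial (Fin 3) k) Q) MvPolynomial.X i) = gr (ext L Q) f i := by
      intro i
      have h2 := gr_map ((MvPolynomial.aeval f : MvPolynomial (Fin 3) k →ₐ[k] L) : MvPolynomial (Fin 3) k →+* L)
        (ext (MvPolynomial (Fin 3) k) Q) MvPolynomial.X i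
      rw [hev] at h2
      simpa using h2
    have hev2 : ∀ P, MvPolynomial.eval e' P = MvPolynomial.aeval e' P := fun P => by
      rw [MvPolynomial.aeval_eq_eval]
    have k1 : dl Q e' = 0 := by
      rw [← h1, ← hev2]
      exact he' _ (by rw [h3, hfd])
    have k2 : ∀ i, gr Q e' i = 0 := fun i => by
      rw [← h1g, ← hev2]
      exact he' _ (by rw [h3g, hfg])
    have k3 : e' i₀ = 1 := by
      have h4 := he' (MvPolynomial.X i₀ - 1) (by
        rw [map_sub, MvPolynomial.aeval_X, map_one, hf0, sub_self])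
      rw [map_sub, MvPolynomial.eval_X, map_one, sub_eq_zero] at h4
      exact h4
    obtain ⟨i, hi⟩ := h.2 e' (fun h0 => by
      rw [h0] at k3
      exact zero_ne_one k3) k1
    exact hi (k2 i)

theorem l1 : StmtL1.{u} := fun _ _ _ _ _ _ _ _ h => smo_ext h

end Pool.Agent.NT28
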