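import Mathlib
import Pool.Agent.Helper40.NT.L1

/-!
# NT block L2: the points of the discriminant curve over a rational function field are constant
-/

set_option autoImplicit false

namespace Pool.Agent.NT28

open Matrix Polynomial

universe u

section idents

variable {R : Type*} [CommRing R]

lemma tr_lin (Q : Fin 3 → Matrix (Fin 3) (Fin 3) R) (e f : Fin 3 → R) :
    ∑ i, f i * gr Q e i = Matrix.trace ((qm Q e).adjugate * qm Q f) := by
  have h1 : (qm Q e).adjugate * qm Q f = ∑ i, f i • ((qm Q e).adjugate * Q i) := by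
    conv_lhs => unfold qm
    rw [Finset.mul_sum]
    refine Finset.sum_congr rfl fun i _ => ?_
    rw [Matrix.mul_smul]
    rfl
  rw [h1, Matrix.trace_sum]
  refine Finset.sum_congr rfl fun i _ => ?_
  rw [Matrix.trace_smul, smul_eq_mul]
  rfl

lemma euler (Q : Fin 3 → Matrix (Fin 3) (Fin 3) R) (e : Fin 3 → R) :
    ∑ i, e i * gr Q e i = 3 * dl Q e := by
  rw [tr_lin, Matrix.adjugate_mul, Matrix.trace_smul, Matrix.trace_one, Fintype.card_fin, smul_eq_mul, mul_comm]
  rfl

end idents

section deriv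

variable {k K : Type*} [Field k] [Field K] [Algebra k K] (Q : Fin 3 → Matrix (Fin 3) (Fin 3) k)

lemma ext_ext {R S : Type*} [CommRing R] [CommRing S] [Algebra k R] [Algebra k S] (φ : R →ₐ[k] S) :
    (fun i => (ext R Q i).map (φ : R →+* S)) = ext S Q := by
  funext i
  ext a b
  simp [ext]

lemma dl_alg {R S : Type*} [CommRing R] [CommRing S] [Algebra k R] [Algebra k S] (φ : R →ₐ[k] S) (e : Fin 3 → R) :
    φ (dl (ext R Q) e) = dl (ext S Q) (fun i => φ (e i)) := by
  have h := dl_map (φ : R →+* S) (ext R Q) e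
  rw [ext_ext] at h
  exact h

lemma gr_alg {R S : Type*} [CommRing R] [CommRing S] [Algebra k R] [Algebra k S] (φ : R →ₐ[k] S) (e : Fin 3 → R)
    (i : Fin 3) : φ (gr (ext R Q) e i) = gr (ext S Q) (fun i => φ (e i)) i := by
  have h := gr_map (φ : R →+* S) (ext R Q) e i
  rw [ext_ext] at h
  exact h

lemma ext_C (i a b : Fin 3) : ext K[X] Q i a b = C (ext K Q i a b) := by
  simp [ext, IsScalarTower.algebraMap_apply k K K[X]]

lemma qm_coeff (P : Fin 3 → K[X]) (n : ℕ) (a b : Fin 3) :
    (qm (ext K[X] Q) P a b).coeff n = qm (ext K Q) (fun i => (P i).coeff n) a b := by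
  simp [qm, Matrix.sum_apply, Fin.sum_univ_three, ext_C]

lemma qm_deriv (P : Fin 3 → K[X]) (a b : Fin 3) :
    derivative (qm (ext K[X] Q) P a b) = qm (ext K[X] Q) (fun i => derivative (P i)) a b := by
  simp [qm, Matrix.sum_apply, Fin.sum_univ_three, ext_C]

lemma qm_deg (P : Fin 3 → K[X]) (n : ℕ) (hn : ∀ i, (P i).natDegree ≤ n) (a b : Fin 3) :
    (qm (ext K[X] Q) P a b).natDegree ≤ n := by
  have h1 : qm (ext K[X] Q) P a b = ∑ i, P i * C (ext K Q i a b) := by
    simp [qm, Matrix.sum_apply, ext_C]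
  rw [h1]
  refine natDegree_sum_le_of_forall_le _ _ fun i _ => ?_
  refine (natDegree_mul_le).trans ?_
  rw [natDegree_C, add_zero]
  exact hn i

lemma det_deriv (M : Matrix (Fin 3) (Fin 3) K[X]) :
    derivative M.det = Matrix.trace (M.adjugate * M.map derivative) := by
  rw [Matrix.det_fin_three, Matrix.adjugate_fin_three]
  simp only [derivative_add, derivative_sub, derivative_mul, Matrix.trace, Matrix.diag_apply, Matrix.mul_apply,
    Fin.sum_univ_three, Matrix.map_apply, Matrix.of_apply, Matrix.cons_val', Matrix.cons_val_zero, Matrix.cons_val_one,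
    Matrix.cons_val, Matrix.cons_val_fin_one]
  ring

lemma dl_deriv (P : Fin 3 → K[X]) :
    derivative (dl (ext K[X] Q) P) = ∑ i, derivative (P i) * gr (ext K[X] Q) P i := by
  rw [tr_lin, dl, det_deriv]
  congr 2
  ext a b
  rw [Matrix.map_apply, qm_deriv]

lemma coeff3 (n : ℕ) (x y z : K[X]) (hx : x.natDegree ≤ n) (hy : y.natDegree ≤ n) (hz : z.natDegree ≤ n) :
    (x * y * z).coeff (n + n + n) = x.coeff n * y.coeff n * z.coeff n := by
  rw [coeff_mul_add_eq_of_natDegree_le (natDegree_mul_le.trans (add_le_add hx hy)) hz,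
    coeff_mul_add_eq_of_natDegree_le hx hy]

lemma dl_coeff (P : Fin 3 → K[X]) (n : ℕ) (hn : ∀ i, (P i).natDegree ≤ n) :
    (dl (ext K[X] Q) P).coeff (n + n + n) = dl (ext K Q) (fun i => (P i).coeff n) := by
  unfold dl
  rw [Matrix.det_fin_three, Matrix.det_fin_three]
  simp only [coeff_add, coeff_sub, coeff3 n _ _ _ (qm_deg Q P n hn _ _) (qm_deg Q P n hn _ _) (qm_deg Q P n hn _ _),
    qm_coeff]

lemma gr_coeff (P : Fin 3 → K[X]) (n : ℕ) (hn : ∀ i, (P i).natDegree ≤ n) (i : Fin 3) :
    (gr (ext K[X] Q) P i).coeff (n + n) = gr (ext K Q) (fun i => (P i).coeff n) i := by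
  unfold gr
  rw [Matrix.adjugate_fin_three, Matrix.adjugate_fin_three]
  simp only [Matrix.trace, Matrix.diag_apply, Matrix.mul_apply,
    Fin.sum_univ_three, Matrix.of_apply, Matrix.cons_val', Matrix.cons_val_zero, Matrix.cons_val_one,
    Matrix.cons_val, Matrix.cons_val_fin_one, coeff_add, coeff_sub, ext_C, coeff_mul_C, coeff_neg,
    coeff_mul_add_eq_of_natDegree_le (qm_deg Q P n hn _ _) (qm_deg Q P n hn _ _), qm_coeff]

end deriv

section main

variable {k K : Type*} [Field k] [IsAlgClosed k] [Field K] [CharZero K] [Algebra k K]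
  {Q : Fin 3 → Matrix (Fin 3) (Fin 3) k}

/-- The gradient does not vanish at a primitive point. -/
lemma gr_unit {R : Type*} [CommRing R] [Algebra k R] (hQ : Smo Q) (P : Fin 3 → R) (hP : Ideal.span (Set.range P) = ⊤)
    (hd : dl (ext R Q) P = 0) : Ideal.span (Set.range (gr (ext R Q) P)) = ⊤ := by
  by_contra hne
  obtain ⟨m, hm, hle⟩ := Ideal.exists_le_maximal _ hne
  let _ : Field (R ⧸ m) := Ideal.Quotient.field m
  have h1 := smo_ext (L := R ⧸ m) hQ
  obtain ⟨i, hi⟩ := h1.2 (fun i => Ideal.Quotient.mkₐ k m (P i)) (fun h0 => by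
    apply hm.ne_top
    rw [eq_top_iff, ← hP, Ideal.span_le]
    rintro _ ⟨i, rfl⟩
    have := congrFun h0 i
    exact Ideal.Quotient.eq_zero_iff_mem.mp this) (by
      have h2 := dl_alg Q (Ideal.Quotient.mkₐ k m) P
      rw [hd, map_zero] at h2
      exact h2.symm)
  apply hi
  rw [← gr_alg Q (Ideal.Quotient.mkₐ k m) P i]
  exact Ideal.Quotient.eq_zero_iff_mem.mpr (hle (Ideal.subset_span ⟨i, rfl⟩))

lemma span3 {R : Type*} [CommRing R] (P : Fin 3 → R) (hP : Ideal.span (Set.range P) = ⊤) :
    ∃ a : Fin 3 → R, ∑ i, a i * P i = 1 := by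
  have h1 : (1 : R) ∈ Ideal.span (Set.range P) := by rw [hP]; trivial
  obtain ⟨c, hc⟩ := (Submodule.mem_span_range_iff_exists_fun R).mp h1
  exact ⟨c, by simpa [smul_eq_mul] using hc⟩

lemma fin3 (p : Fin 3 → Fin 3 → Prop) (h0 : ∀ i, p i i) (hs : ∀ i j, p i j → p j i) (h01 : p 0 1) (h12 : p 1 2)
    (h20 : p 2 0) : ∀ i j, p i j := by
  intro i j
  match i, j with
  | 0, 0 => exact h0 _
  | 0, 1 => exact h01
  | 0, 2 => exact hs _ _ h20
  | 1, 0 => exact hs _ _ h01
  | 1, 1 => exact h0 _
  | 1, 2 => exact h12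
  | 2, 0 => exact h20
  | 2, 1 => exact hs _ _ h12
  | 2, 2 => exact h0 _

/-- A curve of parameters on the discriminant curve over a rational function field of one variable is constant. -/
theorem const1 (hQ : Smo Q) (P : Fin 3 → K[X]) (hP : Ideal.span (Set.range P) = ⊤)
    (hd : dl (ext K[X] Q) P = 0) (i : Fin 3) : (P i).natDegree = 0 := by
  classical
  obtain ⟨b, hb⟩ := span3 P hP
  obtain ⟨a, ha⟩ := span3 _ (gr_unit hQ P hP hd)
  obtain ⟨G, hG⟩ : ∃ G : Fin 3 → K[X], G = gr (ext K[X] Q) P := ⟨_, rfl⟩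
  rw [← hG] at ha
  have e1 : ∑ i, derivative (P i) * G i = 0 := by
    rw [hG, ← dl_deriv, hd, derivative_zero]
  have e2 : ∑ i, P i * G i = 0 := by
    rw [hG, euler, hd, mul_zero]
  rw [Fin.sum_univ_three] at e1 e2 ha hb
  obtain ⟨W, hW⟩ : ∃ W : Fin 3 → K[X], W = crs P (fun i => derivative (P i)) := ⟨_, rfl⟩
  have hW0 : W 0 = P 1 * derivative (P 2) - P 2 * derivative (P 1) := by rw [hW]; rfl
  have hW1 : W 1 = P 2 * derivative (P 0) - P 0 * derivative (P 2) := by rw [hW]; rfl
  have hW2 : W 2 = P 0 * derivative (P 1) - P 1 * derivative (P 0) := by rw [hW]; rfl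
  have hGW : ∀ i j, G i * W j = G j * W i := by
    have h01 : G 0 * W 1 = G 1 * W 0 := by
      rw [hW0, hW1]
      linear_combination (P 2) * e1 - derivative (P 2) * e2
    have h02 : G 0 * W 2 = G 2 * W 0 := by
      rw [hW0, hW2]
      linear_combination -(P 1) * e1 + derivative (P 1) * e2
    have h12 : G 1 * W 2 = G 2 * W 1 := by
      rw [hW1, hW2]
      linear_combination (P 0) * e1 - derivative (P 0) * e2
    exact fin3 (fun i j => G i * W j = G j * W i) (fun i => rfl) (fun i j h => h.symm) h01 h12 h02.symm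
  set l : K[X] := a 0 * W 0 + a 1 * W 1 + a 2 * W 2 with hl
  have hWl : ∀ j, W j = l * G j := by
    intro j
    linear_combination (-W j) * ha + a 0 * hGW 0 j + a 1 * hGW 1 j + a 2 * hGW 2 j
  obtain ⟨n, hn, i₀, hi₀⟩ : ∃ n : ℕ, (∀ i, (P i).natDegree ≤ n) ∧ ∃ i₀, (P i₀).natDegree = n := by
    obtain ⟨i₀, -, h⟩ := Finset.exists_max_image Finset.univ (fun i => (P i).natDegree) ⟨0, Finset.mem_univ _⟩
    exact ⟨_, fun i => h i (Finset.mem_univ _), i₀, rfl⟩
  rcases Nat.eq_zero_or_pos n with hn0 | hn0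
  · exact Nat.eq_zero_of_le_zero (hn0 ▸ hn i)
  -- the leading vector is a point of the curve
  have hlead : (fun i => (P i).coeff n) ≠ 0 := by
    intro h0
    have h1 := congrFun h0 i₀
    simp only [Pi.zero_apply] at h1
    rw [← hi₀, coeff_natDegree, leadingCoeff_eq_zero] at h1
    rw [h1, natDegree_zero] at hi₀
    omega
  obtain ⟨i₁, hi₁⟩ := (smo_ext (L := K) hQ).2 _ hlead (by
    rw [← dl_coeff Q P n hn, hd, coeff_zero])
  rw [← gr_coeff Q P n hn i₁, ← hG] at hi₁
  have hWdeg : ∀ j, (W j).natDegree < n + n := by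
    have hmul : ∀ i j, (P i * derivative (P j)).natDegree ≤ n + (n - 1) := by
      intro i j
      refine natDegree_mul_le.trans (add_le_add (hn i) ((natDegree_derivative_le _).trans ?_))
      exact Nat.sub_le_sub_right (hn j) 1
    have hsub : ∀ i j i' j', (P i * derivative (P j) - P i' * derivative (P j')).natDegree < n + n := by
      intro i j i' j'
      have := natDegree_sub_le_of_le (hmul i j) (hmul i' j')
      rw [max_self] at this
      omega
    intro j
    fin_cases j
    · show (W 0).natDegree < n + n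
      rw [hW0]; exact hsub _ _ _ _
    · show (W 1).natDegree < n + n
      rw [hW1]; exact hsub _ _ _ _
    · show (W 2).natDegree < n + n
      rw [hW2]; exact hsub _ _ _ _
  have hl0 : l = 0 := by
    by_contra hl0
    have hg0 : G i₁ ≠ 0 := fun h0 => by
      rw [h0, coeff_zero] at hi₁
      exact hi₁ rfl
    have h1 : n + n ≤ (G i₁).natDegree := le_natDegree_of_ne_zero hi₁
    have h2 := hWdeg i₁
    rw [hWl, natDegree_mul hl0 hg0] at h2
    omega
  have hWz : ∀ j, W j = 0 := fun j => by rw [hWl, hl0, zero_mul]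
  have hPP : ∀ i j, P i * derivative (P j) = P j * derivative (P i) := by
    have h01 : P 0 * derivative (P 1) = P 1 * derivative (P 0) := by
      have := hWz 2
      rw [hW2, sub_eq_zero] at this
      exact this
    have h12 : P 1 * derivative (P 2) = P 2 * derivative (P 1) := by
      have := hWz 0
      rw [hW0, sub_eq_zero] at this
      exact this
    have h20 : P 2 * derivative (P 0) = P 0 * derivative (P 2) := by
      have := hWz 1
      rw [hW1, sub_eq_zero] at this
      exact this
    exact fin3 (fun i j => P i * derivative (P j) = P j * derivative (P i)) (fun i => rfl) (fun i j h => h.symm) h01 h12 h20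
  have hdvd : ∀ j, P j ∣ derivative (P j) := by
    intro j
    refine ⟨b 0 * derivative (P 0) + b 1 * derivative (P 1) + b 2 * derivative (P 2), ?_⟩
    linear_combination (-derivative (P j)) * hb + b 0 * hPP 0 j + b 1 * hPP 1 j + b 2 * hPP 2 j
  by_contra hne
  have h1 := natDegree_derivative_lt hne
  have h2 : derivative (P i) = 0 := by
    by_contra h0
    have := natDegree_le_of_dvd (hdvd i) h0
    omega
  exact hne (derivative_eq_zero.mp h2)

/-- The step: a transcendental element can be removed. -/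
theorem step {L : Type*} [Field L] [Algebra k L] [Algebra K L] [IsScalarTower k K L] (hQ : Smo Q) (t : L)
    (ht : Transcendental K t) (e : Fin 3 → L) (he : ∀ i, e i ∈ IntermediateField.adjoin K {t}) (he0 : e ≠ 0)
    (hd : dl (ext L Q) e = 0) :
    ∃ (p : Fin 3 → K) (u : L), p ≠ 0 ∧ u ≠ 0 ∧ dl (ext K Q) p = 0 ∧ ∀ i, e i = u * algebraMap K L (p i) := by
  classical
  have hinj : Function.Injective (aeval t : K[X] →ₐ[K] L) := transcendental_iff_injective.mp ht
  have h1 : ∀ i, ∃ r s : K[X], s ≠ 0 ∧ aeval t s * e i = aeval t r := by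
    intro i
    obtain ⟨r, s, hrs⟩ := (IntermediateField.mem_adjoin_simple_iff K _).mp (he i)
    by_cases hs : aeval t s = 0
    · refine ⟨0, 1, one_ne_zero, ?_⟩
      rw [hs, div_zero] at hrs
      rw [hrs, mul_zero, map_zero]
    · refine ⟨r, s, fun h0 => hs (by rw [h0, map_zero]), ?_⟩
      rw [hrs, mul_div_cancel₀ _ hs]
  choose r s hs hrs using h1
  set v : K[X] := ∏ i, s i with hv
  have hv0 : v ≠ 0 := Finset.prod_ne_zero_iff.mpr fun i _ => hs i
  have h2 : ∀ i, ∃ A : K[X], aeval t v * e i = aeval t A := by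
    intro i
    refine ⟨(∏ j ∈ Finset.univ.erase i, s j) * r i, ?_⟩
    rw [hv, ← Finset.prod_erase_mul _ _ (Finset.mem_univ i), map_mul, map_mul, mul_assoc, hrs]
  choose A hA using h2
  obtain ⟨i₀, hi₀⟩ : ∃ i, e i ≠ 0 := by
    by_contra h0
    push Not at h0
    exact he0 (funext h0)
  have hv0' : aeval t v ≠ 0 := fun h0 => hv0 (hinj (by rw [h0, map_zero]))
  have hA0 : A i₀ ≠ 0 := by
    intro h0
    have := hA i₀
    rw [h0, map_zero] at this
    exact mul_ne_zero hv0' hi₀ this
  set I : Ideal K[X] := Ideal.span (Set.range A) with hI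
  obtain ⟨g, hg⟩ := (IsPrincipalIdealRing.principal I).principal
  have hmem : ∀ i, ∃ p, A i = g * p := by
    intro i
    have h3 : A i ∈ I := Ideal.subset_span ⟨i, rfl⟩
    rw [hg] at h3
    obtain ⟨p, hp⟩ := Submodule.mem_span_singleton.mp h3
    exact ⟨p, by rw [← hp, smul_eq_mul, mul_comm]⟩
  choose P hP using hmem
  have hg0 : g ≠ 0 := fun h0 => hA0 (by rw [hP, h0, zero_mul])
  have hspan : Ideal.span (Set.range P) = ⊤ := by
    have h3 : g ∈ I := by
      rw [hg]
      exact Submodule.mem_span_singleton_self g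
    obtain ⟨c, hc⟩ := (Submodule.mem_span_range_iff_exists_fun K[X]).mp h3
    rw [Ideal.eq_top_iff_one]
    have h4 : ∑ i, c i • P i = 1 := by
      apply mul_left_cancel₀ hg0
      rw [mul_one]
      conv_rhs => rw [← hc]
      rw [Finset.mul_sum]
      refine Finset.sum_congr rfl fun i _ => ?_
      rw [hP i, smul_eq_mul, smul_eq_mul]
      ring
    rw [← h4]
    exact Submodule.sum_mem _ fun i _ => Submodule.smul_mem _ _ (Ideal.subset_span ⟨i, rfl⟩)
  have hg0' : aeval t g ≠ 0 := fun h0 => hg0 (hinj (by rw [h0, map_zero]))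
  set c : L := aeval t v / aeval t g with hc
  have hc0 : c ≠ 0 := div_ne_zero hv0' hg0'
  have h5 : ∀ i, aeval t (P i) = c * e i := by
    intro i
    rw [hc, div_mul_eq_mul_div, eq_div_iff hg0', hA, hP, map_mul, mul_comm]
  have hdP : dl (ext K[X] Q) P = 0 := by
    apply hinj
    have h6 := dl_alg Q ((aeval t : K[X] →ₐ[K] L).restrictScalars k) P
    rw [map_zero]
    refine h6.trans ?_
    have h7 : (fun i => ((aeval t : K[X] →ₐ[K] L).restrictScalars k) (P i)) = fun i => c * e i := by
      funext i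
      exact h5 i
    rw [h7, dl_smul, hd, mul_zero]
  have hconst := const1 hQ P hspan hdP
  have h8 : ∀ i, P i = C ((P i).coeff 0) := fun i => eq_C_of_natDegree_eq_zero (hconst i)
  have h9 : ∀ i, algebraMap K L ((P i).coeff 0) = c * e i := by
    intro i
    rw [← h5 i]
    conv_rhs => rw [h8 i, aeval_C]
  refine ⟨fun i => (P i).coeff 0, c⁻¹, fun h0 => ?_, inv_ne_zero hc0, ?_, fun i => ?_⟩
  · have h10 := congrFun h0 i₀
    have h11 := h9 i₀
    simp only [Pi.zero_apply] at h10
    rw [h10, map_zero] at h11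
    exact mul_ne_zero hc0 hi₀ h11.symm
  · apply (algebraMap K L).injective
    have h6 := dl_alg Q ((Algebra.ofId K L).restrictScalars k) (fun i => (P i).coeff 0)
    rw [map_zero]
    refine h6.trans ?_
    have h7 : (fun i => ((Algebra.ofId K L).restrictScalars k) ((P i).coeff 0)) = fun i => c * e i := by
      funext i
      exact h9 i
    rw [h7, dl_smul, hd, mul_zero]
  · rw [h9 i, inv_mul_cancel_left₀ hc0]

end main

theorem l2 : StmtL2.{u} := by
  intro k L _ _ _ _ _ Q hQ s t hst e he he0 hd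
  have : CharZero L := charZero_of_injective_algebraMap (algebraMap k L).injective
  have : CharZero (IntermediateField.adjoin k {s}) :=
    charZero_of_injective_algebraMap (algebraMap k (IntermediateField.adjoin k {s})).injective
  have hs : Transcendental k s := hst.transcendental 0
  have ht : Transcendental (IntermediateField.adjoin k {s}) t := by
    rw [IntermediateField.transcendental_adjoin_iff]
    have h1 := hst.transcendental_adjoin (s := {0}) (i := 1) (by decide)
    rw [Set.image_singleton] at h1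
    exact h1
  obtain ⟨p, u, hp, hu, hdp, hep⟩ := step (K := IntermediateField.adjoin k {s}) hQ t ht e (fun i => by
    have h1 := he i
    have h2 : IntermediateField.adjoin k {s, t} =
        (IntermediateField.adjoin (IntermediateField.adjoin k {s}) {t}).restrictScalars k := by
      rw [IntermediateField.adjoin_adjoin_left]
      rfl
    rw [h2] at h1
    exact h1) he0 hd
  have hdp' : dl (ext L Q) (fun i => algebraMap (IntermediateField.adjoin k {s}) L (p i)) = 0 := by
    have h6 := dl_alg Q ((Algebra.ofId (IntermediateField.adjoin k {s}) L).restrictScalars k) p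
    rw [hdp, map_zero] at h6
    exact h6.symm
  obtain ⟨q, w, hq, hw, hdq, heq⟩ := step (K := k) hQ s hs
    (fun i => algebraMap (IntermediateField.adjoin k {s}) L (p i)) (fun i => (p i).2) (fun h0 => hp (by
      funext i
      exact (algebraMap (IntermediateField.adjoin k {s}) L).injective ((congrFun h0 i).trans (map_zero _).symm))) hdp'
  exact ⟨q, u * w, hq, fun i => by rw [hep i, heq i, mul_assoc]⟩

end Pool.Agent.NT28
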