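import Mathlib
import Pool.Agent.Helper40.NT.L2
import Pool.Agent.Helper17.FF.RR

/-!
# NT block D, second part: the divisor of the double cover
-/

set_option autoImplicit false

namespace Pool.Agent.NT28

open Matrix Polynomial VC

universe u

section sym

variable {R : Type*} [CommRing R]

/-- In a symmetric singular `3 × 3` matrix the adjugate has rank at most one. -/
lemma adj_sq (A : Matrix (Fin 3) (Fin 3) R) (hs : A.transpose = A) (hd : A.det = 0) (i j : Fin 3) :
    A.adjugate i i * A.adjugate j j = A.adjugate i j ^ 2 := by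
  have h10 : A 1 0 = A 0 1 := congrFun (congrFun hs 0) 1
  have h20 : A 2 0 = A 0 2 := congrFun (congrFun hs 0) 2
  have h21 : A 2 1 = A 1 2 := congrFun (congrFun hs 1) 2
  rw [Matrix.det_fin_three, h10, h20, h21] at hd
  have hsym : A.adjugate.transpose = A.adjugate := by rw [Matrix.adjugate_transpose, hs]
  have hsym' : ∀ a b, A.adjugate a b = A.adjugate b a := fun a b => congrFun (congrFun hsym b) a
  have h01 : A.adjugate 0 0 * A.adjugate 1 1 = A.adjugate 0 1 ^ 2 := by
    rw [Matrix.adjugate_fin_three]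
    simp only [Matrix.of_apply, Matrix.cons_val', Matrix.cons_val_zero, Matrix.cons_val_one,
      Matrix.cons_val, Matrix.cons_val_fin_one, h10, h20, h21]
    linear_combination (A 2 2) * hd
  have h02 : A.adjugate 0 0 * A.adjugate 2 2 = A.adjugate 0 2 ^ 2 := by
    rw [Matrix.adjugate_fin_three]
    simp only [Matrix.of_apply, Matrix.cons_val', Matrix.cons_val_zero, Matrix.cons_val_one,
      Matrix.cons_val, Matrix.cons_val_fin_one, h10, h20, h21]
    linear_combination (A 1 1) * hd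
  have h12 : A.adjugate 1 1 * A.adjugate 2 2 = A.adjugate 1 2 ^ 2 := by
    rw [Matrix.adjugate_fin_three]
    simp only [Matrix.of_apply, Matrix.cons_val', Matrix.cons_val_zero, Matrix.cons_val_one,
      Matrix.cons_val, Matrix.cons_val_fin_one, h10, h20, h21]
    linear_combination (A 0 0) * hd
  exact fin3 (fun i j => A.adjugate i i * A.adjugate j j = A.adjugate i j ^ 2) (fun i => (sq _).symm)
    (fun i j h => by rw [mul_comm, h, hsym' i j]) h01 h12 (by rw [mul_comm, h02, hsym' 0 2]) i j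

lemma qm_symm (Q : Fin 3 → Matrix (Fin 3) (Fin 3) R) (hQ : ∀ i, (Q i).transpose = Q i) (e : Fin 3 → R) :
    (qm Q e).transpose = qm Q e := by
  unfold qm
  rw [Matrix.transpose_sum]
  refine Finset.sum_congr rfl fun i _ => ?_
  rw [Matrix.transpose_smul, hQ]

end sym

/-- At a point of the smooth discriminant curve some diagonal entry of the adjugate is not zero. -/
lemma exists_adj {k : Type*} [Field k] {Q : Fin 3 → Matrix (Fin 3) (Fin 3) k} (hQ : Smo Q) (e : Fin 3 → k) (he : e ≠ 0)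
    (hd : dl Q e = 0) : ∃ j, (qm Q e).adjugate j j ≠ 0 := by
  by_contra hcon
  push Not at hcon
  obtain ⟨i, hi⟩ := hQ.2 e he hd
  have h1 : (qm Q e).adjugate = 0 := by
    ext a b
    have h2 := adj_sq (qm Q e) (qm_symm Q hQ.1 e) hd a b
    rw [hcon a, zero_mul] at h2
    exact pow_eq_zero_iff (two_ne_zero) |>.mp h2.symm
  apply hi
  unfold gr
  rw [h1, Matrix.zero_mul, Matrix.trace_zero]

section place

variable {k K : Type u} [Field k] [IsAlgClosed k] [Field K] [Algebra k K]
  {Q : Fin 3 → Matrix (Fin 3) (Fin 3) k}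

/-- The local statement: the order of the diagonal entries of the adjugate is even. -/
theorem even_ord (hK : IsFunctionField k K) (hQ : Smo Q) (P : Place k K) (e : Fin 3 → K) (hd : dl (ext K Q) e = 0)
    (H : ℤ) (h0 : ∀ j, e j = 0 ∨ 0 ≤ ord P.ring (e j) + H) (h1 : ∃ j, e j ≠ 0 ∧ ord P.ring (e j) + H = 0)
    (i : Fin 3) (hi : (qm (ext K Q) e).adjugate i i ≠ 0) :
    ∃ m : ℤ, ord P.ring ((qm (ext K Q) e).adjugate i i) = 2 * m := by
  obtain ⟨π, hπ0, hπ⟩ := FF.exists_uniformizer hK P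
  obtain ⟨c, hc⟩ : ∃ c : K, c = π ^ H := ⟨_, rfl⟩
  have hc0 : c ≠ 0 := by rw [hc]; exact zpow_ne_zero _ hπ0
  have hcH : ord P.ring c = H := by rw [hc, FF.ord_zpow hK P hπ0, hπ, mul_one]
  have hord : ∀ j, e j ≠ 0 → ord P.ring (c * e j) = ord P.ring (e j) + H := by
    intro j hj
    rw [FF.ord_mul hK P hc0 hj, hcH, add_comm]
  have hmem : ∀ j, c * e j ∈ P.ring := by
    intro j
    rcases eq_or_ne (e j) 0 with hj | hj
    · rw [hj, mul_zero]
      exact P.ring.zero_mem
    · refine (FF.ord_nonneg_iff hK P (mul_ne_zero hc0 hj)).mp ?_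
      rw [hord j hj]
      exact (h0 j).resolve_left hj
  obtain ⟨f, hf⟩ : ∃ f : Fin 3 → P.ring, ∀ j, (f j : K) = c * e j := ⟨fun j => ⟨_, hmem j⟩, fun j => rfl⟩
  obtain ⟨ρ, hρ⟩ : ∃ ρ : k →+* P.ring, ∀ a, (ρ a : K) = algebraMap k K a :=
    ⟨(algebraMap k K).codRestrict P.ring.toSubring P.algebraMap_mem, fun a => rfl⟩
  obtain ⟨ψ, hψ⟩ : ∃ ψ : P.ring →+* K, ∀ a, ψ a = (a : K) := ⟨P.ring.subtype, fun a => rfl⟩
  have hψi : Function.Injective ψ := fun a b hab => by
    rw [hψ, hψ] at hab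
    exact Subtype.ext hab
  obtain ⟨Q', hQ'⟩ : ∃ Q' : Fin 3 → Matrix (Fin 3) (Fin 3) P.ring, Q' = fun i => (Q i).map ρ := ⟨_, rfl⟩
  have e1 : (fun i => (Q' i).map ψ) = ext K Q := by
    funext i
    ext a b
    simp [hQ', ext, hψ, hρ]
  have e2 : (fun i => (Q' i).map (FF.ev hK P)) = Q := by
    funext i
    ext a b
    simp only [hQ', Matrix.map_apply]
    have : ρ (Q i a b) = ⟨algebraMap k K (Q i a b), P.algebraMap_mem _⟩ := Subtype.ext (hρ _)
    rw [this, FF.ev_algebraMap]
  have e3 : (fun j => ψ (f j)) = fun j => c * e j := by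
    funext j
    rw [hψ, hf]
  have hQs : ∀ i, (Q' i).transpose = Q' i := by
    intro i
    rw [hQ', ← Matrix.transpose_map, hQ.1 i]
  have hd' : dl Q' f = 0 := by
    apply hψi
    rw [dl_map, e1, e3, dl_smul, hd, mul_zero, map_zero]
  have hdev : dl Q (fun j => FF.ev hK P (f j)) = 0 := by
    have h2 := dl_map (FF.ev hK P) Q' f
    rw [hd', map_zero, e2] at h2
    exact h2.symm
  obtain ⟨j₀, hj₀, hj₀'⟩ := h1
  have hne : (fun j => FF.ev hK P (f j)) ≠ 0 := by
    intro h2
    have h3 := congrFun h2 j₀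
    simp only [Pi.zero_apply] at h3
    rw [FF.ev_eq_zero_iff, hf, ← FF.ord_pos_iff hK P (mul_ne_zero hc0 hj₀), hord j₀ hj₀] at h3
    omega
  obtain ⟨j, hj⟩ := exists_adj hQ _ hne hdev
  obtain ⟨A, hA⟩ : ∃ A, A = (qm Q' f).adjugate := ⟨_, rfl⟩
  have hsq : A i i * A j j = A i j ^ 2 := by
    rw [hA]
    exact adj_sq _ (qm_symm Q' hQs f) hd' i j
  have hev : FF.ev hK P (A j j) ≠ 0 := by
    intro h2
    apply hj
    have h3 : (qm Q (fun j => FF.ev hK P (f j))).adjugate = A.map (FF.ev hK P) := by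
      rw [hA]
      have h4 := qm_map (FF.ev hK P) Q' f
      rw [e2] at h4
      rw [← h4]
      exact (RingHom.map_adjugate (FF.ev hK P) (qm Q' f)).symm
    rw [h3, Matrix.map_apply, h2]
  have hAK : ∀ a b, (A a b : K) = c ^ 2 * (qm (ext K Q) e).adjugate a b := by
    intro a b
    have h4 := qm_map ψ Q' f
    rw [e1, e3, qm_smul] at h4
    have h5 : A.map ψ = (c • qm (ext K Q) e).adjugate := by
      rw [hA, ← h4]
      exact RingHom.map_adjugate ψ (qm Q' f)
    rw [Matrix.adjugate_smul, Fintype.card_fin] at h5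
    have h6 := congrFun (congrFun h5 a) b
    rw [Matrix.map_apply, hψ, Matrix.smul_apply, smul_eq_mul] at h6
    exact h6
  have hjj0 : (A j j : K) ≠ 0 := by
    intro h2
    apply hev
    have : A j j = 0 := Subtype.ext h2
    rw [this, map_zero]
  have hjj : ord P.ring (A j j : K) = 0 := by
    have h2 := (FF.ord_nonneg_iff hK P hjj0).mpr (A j j).2
    have h3 : ¬ 0 < ord P.ring (A j j : K) := by
      rw [FF.ord_pos_iff hK P hjj0, ← FF.ev_eq_zero_iff hK P]
      exact hev
    omega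
  have hii0 : (A i i : K) ≠ 0 := by
    rw [hAK]
    exact mul_ne_zero (pow_ne_zero 2 hc0) hi
  have hsq' : (A i i : K) * A j j = (A i j : K) ^ 2 := by
    have := congrArg ψ hsq
    rw [map_mul, map_pow, hψ, hψ, hψ] at this
    exact this
  have hij0 : (A i j : K) ≠ 0 := by
    intro h2
    rw [h2, zero_pow two_ne_zero] at hsq'
    exact mul_ne_zero hii0 hjj0 hsq'
  have h7 := congrArg (ord P.ring) hsq'
  rw [FF.ord_mul hK P hii0 hjj0, hjj, add_zero, FF.ord_pow hK P hij0, hAK, FF.ord_mul hK P (pow_ne_zero 2 hc0) hi,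
    FF.ord_pow hK P hc0, hcH] at h7
  refine ⟨ord P.ring (A i j : K) - H, ?_⟩
  push_cast at h7
  linarith

/-- BLOCK D, second part. -/
theorem d2 (hK : IsFunctionField k K) (hQ : Smo Q) (x y : K) (hd : dl (ext K Q) ![x, y, 1] = 0)
    (Hd : Place k K →₀ ℤ) (hH0 : ∀ P, 0 ≤ Hd P) (hHx : ∀ P, 0 ≤ ord P.ring x + Hd P ∨ x = 0)
    (hHy : ∀ P, 0 ≤ ord P.ring y + Hd P ∨ y = 0)
    (hHe : ∀ P, Hd P = 0 ∨ ord P.ring x = - Hd P ∨ ord P.ring y = - Hd P)
    (i : Fin 3) (hi : (qm (ext K Q) ![x, y, 1]).adjugate i i ≠ 0) :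
    ∃ E : Place k K →₀ ℤ, (E.sum fun _ m => m) = (Hd.sum fun _ m => m) ∧
      ∀ (P : Place k K) (H : ℤ), (0 ≤ H) → (0 ≤ ord P.ring x + H ∨ x = 0) → (0 ≤ ord P.ring y + H ∨ y = 0) →
        (H = 0 ∨ ord P.ring x = - H ∨ ord P.ring y = - H) →
        2 * E P = 2 * H - ord P.ring ((qm (ext K Q) ![x, y, 1]).adjugate i i) := by
  classical
  obtain ⟨a, ha⟩ : ∃ a, a = (qm (ext K Q) ![x, y, 1]).adjugate i i := ⟨_, rfl⟩
  rw [← ha] at hi
  have hz : ∀ P : Place k K, ∀ z : K, ord P.ring z ≠ 0 → z ≠ 0 := fun P z h h0 => h (by rw [h0, FF.ord_zero])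
  have heven : ∀ P : Place k K, ∃ m : ℤ, FF.dv hK a P = 2 * m := by
    intro P
    rw [FF.dv_apply, ha]
    refine even_ord hK hQ P ![x, y, 1] hd (Hd P) ?_ ?_ i (by rw [← ha]; exact hi)
    · intro j
      match j with
      | 0 => exact (hHx P).symm
      | 1 => exact (hHy P).symm
      | 2 =>
        right
        show 0 ≤ ord P.ring (1 : K) + Hd P
        rw [FF.ord_one hK P, zero_add]
        exact hH0 P
    · by_cases hH : Hd P = 0
      · refine ⟨2, one_ne_zero, ?_⟩
        show ord P.ring (1 : K) + Hd P = 0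
        rw [FF.ord_one hK P, hH, add_zero]
      · rcases hHe P with h | h | h
        · exact absurd h hH
        · exact ⟨0, hz P x (by rw [h]; omega), by show ord P.ring x + Hd P = 0; omega⟩
        · exact ⟨1, hz P y (by rw [h]; omega), by show ord P.ring y + Hd P = 0; omega⟩
  obtain ⟨v, hv⟩ : ∃ v : Place k K →₀ ℤ, v = (FF.dv hK a).mapRange (fun n => n / 2) (by norm_num) := ⟨_, rfl⟩
  have hv2 : ∀ P, 2 * v P = ord P.ring a := by
    intro P
    obtain ⟨m, hm⟩ := heven P
    rw [hv, Finsupp.mapRange_apply, ← FF.dv_apply hK a P, hm]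
    omega
  have hvd : (2 : ℤ) • v = FF.dv hK a := by
    ext P
    rw [Finsupp.smul_apply, smul_eq_mul, hv2]
    rfl
  have hdeg : FF.deg v = 0 := by
    have h1 := congrArg FF.deg hvd
    rw [FF.deg_dv hK hi, map_zsmul, smul_eq_mul] at h1
    omega
  refine ⟨Hd - v, ?_, fun P H hH hx hy he => ?_⟩
  · rw [← FF.deg_eq, ← FF.deg_eq, map_sub, hdeg, sub_zero]
  · have hHH : H = Hd P := by
      have hx1 := hHx P
      have hy1 := hHy P
      have he1 := hHe P
      have hH1 := hH0 P
      have hx2 : x = 0 → ord P.ring x = 0 := fun h => by rw [h, FF.ord_zero]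
      have hy2 : y = 0 → ord P.ring y = 0 := fun h => by rw [h, FF.ord_zero]
      have hx3 : 0 ≤ ord P.ring x + H := by
        rcases hx with h | h
        · exact h
        · rw [hx2 h]; omega
      have hy3 : 0 ≤ ord P.ring y + H := by
        rcases hy with h | h
        · exact h
        · rw [hy2 h]; omega
      have hx4 : 0 ≤ ord P.ring x + Hd P := by
        rcases hx1 with h | h
        · exact h
        · rw [hx2 h]; omega
      have hy4 : 0 ≤ ord P.ring y + Hd P := by
        rcases hy1 with h | h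
        · exact h
        · rw [hy2 h]; omega
      omega
    rw [← ha, ← hv2 P, hHH, Finsupp.sub_apply]
    ring

end place

end Pool.Agent.NT28
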