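import Mathlib
import Pool.Agent.Helper40.NT.D2
import Pool.Agent.Helper17.FF.Genus

/-!
# NT block D, first part: function fields `k (x, y)` with `y` integral of degree at most three over `k[x]`
-/

set_option autoImplicit false
set_option linter.unusedSectionVars false

namespace Pool.Agent.NT28

open Matrix Polynomial VC IntermediateField

universe u

section cubic

variable {k K : Type u} [Field k] [IsAlgClosed k] [Field K] [Algebra k K]

/-- The cubic polynomial of `y` over `k (x)`. -/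
noncomputable def cubPol (x : K) (a b c : k[X]) : (k⟮x⟯)[X] :=
  X ^ 3 + C (aeval (AdjoinSimple.gen k x) a) * X ^ 2 + C (aeval (AdjoinSimple.gen k x) b) * X +
    C (aeval (AdjoinSimple.gen k x) c)

lemma cubPol_monic (x : K) (a b c : k[X]) : (cubPol x a b c).Monic := by
  unfold cubPol
  monicity!

lemma cubPol_deg (x : K) (a b c : k[X]) : (cubPol x a b c).natDegree = 3 := by
  unfold cubPol
  compute_degree!

lemma cubPol_aeval (x y : K) (a b c : k[X])
    (h : y ^ 3 + aeval x a * y ^ 2 + aeval x b * y + aeval x c = 0) : aeval y (cubPol x a b c) = 0 := by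
  have h1 : ∀ p : k[X], algebraMap k⟮x⟯ K (aeval (AdjoinSimple.gen k x) p) = aeval x p := by
    intro p
    rw [← aeval_algebraMap_apply, AdjoinSimple.algebraMap_gen]
  unfold cubPol
  simp only [map_add, map_mul, map_pow, aeval_X, aeval_C, h1]
  exact h

lemma cub_integral (x y : K) (a b c : k[X])
    (h : y ^ 3 + aeval x a * y ^ 2 + aeval x b * y + aeval x c = 0) : IsIntegral k⟮x⟯ y :=
  ⟨cubPol x a b c, cubPol_monic x a b c, by
    have := cubPol_aeval x y a b c h
    rw [aeval_def] at this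
    exact this⟩

lemma gen_top (x y : K) (hg : IntermediateField.adjoin k {x, y} = ⊤) : IntermediateField.adjoin k⟮x⟯ {y} = ⊤ := by
  have h1 : IntermediateField.adjoin k {x, y} = (IntermediateField.adjoin k⟮x⟯ {y}).restrictScalars k := by
    rw [IntermediateField.adjoin_adjoin_left]
    rfl
  rw [hg] at h1
  exact (IntermediateField.restrictScalars_eq_top_iff (K := k)).mp h1.symm

lemma cub_ff (x y : K) (a b c : k[X]) (hx : Transcendental k x) (hg : IntermediateField.adjoin k {x, y} = ⊤)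
    (h : y ^ 3 + aeval x a * y ^ 2 + aeval x b * y + aeval x c = 0) : IsFunctionField k K := by
  refine ⟨x, hx, ?_⟩
  have h1 := IntermediateField.adjoin.finiteDimensional (cub_integral x y a b c h)
  rw [gen_top x y hg] at h1
  exact Module.Finite.of_surjective (IntermediateField.topEquiv (F := k⟮x⟯) (E := K)).toLinearMap
    (IntermediateField.topEquiv (F := k⟮x⟯) (E := K)).surjective

/-- The degree and the basis. -/
lemma cub_basis (x y : K) (a b c : k[X]) (hg : IntermediateField.adjoin k {x, y} = ⊤)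
    (h : y ^ 3 + aeval x a * y ^ 2 + aeval x b * y + aeval x c = 0) :
    1 ≤ Module.finrank k⟮x⟯ K ∧ Module.finrank k⟮x⟯ K ≤ 3 ∧
      LinearIndependent k⟮x⟯ (fun j : Fin (Module.finrank k⟮x⟯ K) => y ^ (j : ℕ)) := by
  have hi := cub_integral x y a b c h
  have h1 : Module.finrank k⟮x⟯ K = (minpoly k⟮x⟯ y).natDegree := by
    rw [← IntermediateField.adjoin.finrank hi, gen_top x y hg]
    exact (IntermediateField.finrank_top' (F := k⟮x⟯) (E := K)).symm
  rw [h1]
  refine ⟨minpoly.natDegree_pos hi, ?_, linearIndependent_pow y⟩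
  rw [← cubPol_deg x a b c]
  exact Polynomial.natDegree_le_of_dvd (minpoly.dvd _ _ (cubPol_aeval x y a b c h)) (cubPol_monic x a b c).ne_zero

lemma mem_pow (P : Place k K) (c x : K) (hc : c ∈ P.ring) (hcx : c * x ∈ P.ring) (j : ℕ) (a : k[X])
    (ha : a.natDegree ≤ j) : c ^ j * aeval x a ∈ P.ring := by
  rw [aeval_eq_sum_range' (Nat.lt_succ_of_le ha), Finset.mul_sum]
  refine sum_mem fun i hi => ?_
  have hij : i ≤ j := Nat.lt_succ_iff.mp (Finset.mem_range.mp hi)
  have e : c ^ j * (a.coeff i • x ^ i) = algebraMap k K (a.coeff i) * ((c * x) ^ i * c ^ (j - i)) := by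
    rw [Algebra.smul_def, mul_pow]
    have : c ^ j = c ^ i * c ^ (j - i) := by rw [← pow_add, Nat.add_sub_cancel' hij]
    rw [this]
    ring
  rw [e]
  exact mul_mem (P.algebraMap_mem _) (mul_mem (pow_mem hcx _) (pow_mem hc _))

/-- If `c` and `c x` are in the valuation ring, so is `c y`. -/
lemma mem_y (P : Place k K) (c x y : K) (hc : c ∈ P.ring) (hcx : c * x ∈ P.ring) (a b d : k[X])
    (ha : a.natDegree ≤ 1) (hb : b.natDegree ≤ 2) (hd : d.natDegree ≤ 3)
    (h : y ^ 3 + aeval x a * y ^ 2 + aeval x b * y + aeval x d = 0) : c * y ∈ P.ring := by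
  obtain ⟨A, hA⟩ : ∃ A : P.ring, (A : K) = c ^ 1 * aeval x a := ⟨⟨_, mem_pow P c x hc hcx 1 a ha⟩, rfl⟩
  obtain ⟨B, hB⟩ : ∃ A : P.ring, (A : K) = c ^ 2 * aeval x b := ⟨⟨_, mem_pow P c x hc hcx 2 b hb⟩, rfl⟩
  obtain ⟨D, hD⟩ : ∃ A : P.ring, (A : K) = c ^ 3 * aeval x d := ⟨⟨_, mem_pow P c x hc hcx 3 d hd⟩, rfl⟩
  have hint : IsIntegral P.ring (c * y) := by
    refine ⟨X ^ 3 + C A * X ^ 2 + C B * X + C D, by monicity!, ?_⟩
    have hm : ∀ z : P.ring, algebraMap P.ring K z = z := fun z => rfl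
    simp only [eval₂_add, eval₂_mul, eval₂_pow, eval₂_X, eval₂_C, hm, hA, hB, hD]
    linear_combination c ^ 3 * h
  obtain ⟨z, hz⟩ := IsIntegrallyClosed.algebraMap_eq_of_integral hint
  rw [← hz]
  exact z.2

lemma exists_c (hK : IsFunctionField k K) (P : Place k K) (x : K) (hx0 : x ≠ 0) :
    ∃ c : K, c ≠ 0 ∧ ord P.ring c = FF.poles hK x P ∧ c ∈ P.ring ∧ c * x ∈ P.ring := by
  obtain ⟨c, hc0, hc⟩ := FF.exists_ord_eq hK P (FF.poles hK x P)
  have h0 := FF.poles_nonneg hK x P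
  refine ⟨c, hc0, hc, (FF.ord_nonneg_iff hK P hc0).mp (by rw [hc]; exact h0), ?_⟩
  refine (FF.ord_nonneg_iff hK P (mul_ne_zero hc0 hx0)).mp ?_
  rw [FF.ord_mul hK P hc0 hx0, hc, FF.poles_apply]
  have := le_max_left (- ord P.ring x) 0
  omega

lemma y_ord (hK : IsFunctionField k K) (P : Place k K) (x y : K) (hx0 : x ≠ 0) (a b d : k[X])
    (ha : a.natDegree ≤ 1) (hb : b.natDegree ≤ 2) (hd : d.natDegree ≤ 3)
    (h : y ^ 3 + aeval x a * y ^ 2 + aeval x b * y + aeval x d = 0) :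
    y = 0 ∨ 0 ≤ ord P.ring y + FF.poles hK x P := by
  rcases eq_or_ne y 0 with hy | hy
  · exact Or.inl hy
  · right
    obtain ⟨c, hc0, hc, hcP, hcx⟩ := exists_c hK P x hx0
    have h1 := (FF.ord_nonneg_iff hK P (mul_ne_zero hc0 hy)).mpr (mem_y P c x y hcP hcx a b d ha hb hd h)
    rw [FF.ord_mul hK P hc0 hy, hc] at h1
    omega

/-- The genus is at most one. -/
theorem cub_genus (hK : IsFunctionField k K) (x y : K) (a b c : k[X]) (hx : Transcendental k x)
    (ha : a.natDegree ≤ 1) (hb : b.natDegree ≤ 2) (hc : c.natDegree ≤ 3)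
    (hg : IntermediateField.adjoin k {x, y} = ⊤)
    (h : y ^ 3 + aeval x a * y ^ 2 + aeval x b * y + aeval x c = 0) (g : ℕ) (hgen : IsGenus k K g) : g ≤ 1 := by
  classical
  have hx0 : x ≠ 0 := by
    rintro rfl
    exact hx isAlgebraic_zero
  obtain ⟨d1, d3, hli⟩ := cub_basis x y a b c hg h
  have hdeg := FF.deg_poles hK hx
  obtain ⟨d, hd⟩ : ∃ d, d = Module.finrank k⟮x⟯ K := ⟨_, rfl⟩
  rw [← hd] at d1 d3 hdeg hli
  obtain ⟨C, hC⟩ := FF.ell_eq_of_large hK hgen
  obtain ⟨n, hn2, hn⟩ : ∃ n : ℕ, 2 ≤ n ∧ C ≤ n := ⟨max 2 C.toNat, le_max_left _ _, by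
    have := Int.self_le_toNat C
    have h2 : (C.toNat : ℤ) ≤ ((max 2 C.toNat : ℕ) : ℤ) := by exact_mod_cast le_max_right _ _
    omega⟩
  have hdn : FF.deg (n • FF.poles hK x) = n * d := by
    rw [map_nsmul, hdeg, nsmul_eq_mul]
  have hell := hC (n • FF.poles hK x) (by
    rw [hdn]
    have : (1 : ℤ) ≤ d := by exact_mod_cast d1
    nlinarith)
  rw [hdn] at hell
  -- the monomials
  have h2 := FF.linearIndependent_mul_pow hx (n + 1) _ hli
  obtain ⟨φ, hφ⟩ : ∃ φ : (Σ j : Fin d, Fin (n + 1 - j)) → Fin (n + 1) × Fin d,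
      φ = fun p => (⟨p.2, lt_of_lt_of_le p.2.2 (Nat.sub_le _ _)⟩, p.1) := ⟨_, rfl⟩
  have hφi : Function.Injective φ := by
    rintro ⟨j, i⟩ ⟨j', i'⟩ hij
    rw [hφ] at hij
    simp only [Prod.mk.injEq, Fin.mk.injEq] at hij
    obtain ⟨h3, rfl⟩ := hij
    have : i = i' := Fin.ext h3
    rw [this]
  have h3 := h2.comp φ hφi
  have hmem : ∀ p : (Σ j : Fin d, Fin (n + 1 - j)), x ^ ((φ p).1 : ℕ) * y ^ ((φ p).2 : ℕ) ∈
      riemannRochSpace k K (n • FF.poles hK x) := by
    intro p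
    have e1 : ((φ p).1 : ℕ) = (p.2 : ℕ) := by rw [hφ]
    have e2 : ((φ p).2 : ℕ) = (p.1 : ℕ) := by rw [hφ]
    rw [e1, e2]
    have hlt : (p.2 : ℕ) + (p.1 : ℕ) ≤ n := by
      have := p.2.2
      omega
    rcases eq_or_ne (x ^ (p.2 : ℕ) * y ^ (p.1 : ℕ)) 0 with h0 | h0
    · rw [h0]
      exact Submodule.zero_mem _
    · rw [FF.mem_rr hK _ h0]
      intro P
      have hy0 : y ^ (p.1 : ℕ) ≠ 0 := right_ne_zero_of_mul h0
      have hX : - FF.poles hK x P ≤ ord P.ring x := by
        rw [FF.poles_apply]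
        have := le_max_left (- ord P.ring x) 0
        omega
      have hP := FF.poles_nonneg hK x P
      have hY : ord P.ring (y ^ (p.1 : ℕ)) ≥ - (FF.poles hK x P * (p.1 : ℕ)) := by
        rcases y_ord hK P x y hx0 a b c ha hb hc h with hy | hy
        · rcases Nat.eq_zero_or_pos (p.1 : ℕ) with h5 | h5
          · rw [h5, pow_zero, FF.ord_one hK P]
            simp
          · exact absurd (by rw [hy, zero_pow h5.ne']) hy0
        · rcases eq_or_ne y 0 with hy1 | hy1
          · rcases Nat.eq_zero_or_pos (p.1 : ℕ) with h5 | h5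
            · rw [h5, pow_zero, FF.ord_one hK P]
              simp
            · exact absurd (by rw [hy1, zero_pow h5.ne']) hy0
          · rw [FF.ord_pow hK P hy1]
            have h6 : (0 : ℤ) ≤ ((p.1 : ℕ) : ℤ) := by positivity
            nlinarith
      rw [FF.ord_mul hK P (pow_ne_zero _ hx0) hy0, FF.ord_pow hK P hx0, Finsupp.smul_apply, nsmul_eq_mul]
      have h6 : (0 : ℤ) ≤ ((p.2 : ℕ) : ℤ) := by positivity
      have h7 : ((p.2 : ℕ) : ℤ) + ((p.1 : ℕ) : ℤ) ≤ n := by exact_mod_cast hlt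
      nlinarith
  have h4 : LinearIndependent k (fun p : (Σ j : Fin d, Fin (n + 1 - j)) =>
      (⟨x ^ ((φ p).1 : ℕ) * y ^ ((φ p).2 : ℕ), hmem p⟩ : riemannRochSpace k K (n • FF.poles hK x))) :=
    LinearIndependent.of_comp (riemannRochSpace k K (n • FF.poles hK x)).subtype h3
  have := FF.finite_rr hK (n • FF.poles hK x)
  have h5 := h4.fintype_card_le_finrank
  rw [Fintype.card_sigma] at h5
  simp only [Fintype.card_fin] at h5
  have h6 : ((∑ j : Fin d, (n + 1 - (j : ℕ)) : ℕ) : ℤ) ≤ n * d + 1 - g := by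
    rw [← hell]
    exact_mod_cast h5
  have hcases : d = 1 ∨ d = 2 ∨ d = 3 := by omega
  rcases hcases with rfl | rfl | rfl
  · simp only [Fin.sum_univ_one, Fin.val_zero] at h6
    push_cast at h6
    omega
  · simp only [Fin.sum_univ_two, Fin.val_zero, Fin.val_one] at h6
    omega
  · simp only [Fin.sum_univ_three, Fin.val_zero, Fin.val_one, Fin.val_two] at h6
    omega

end cubic

end Pool.Agent.NT28
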