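import Mathlib
import Pool.Agent.Helper40.NT.D1

/-!
# NT block D: the discriminant curve
-/

set_option autoImplicit false
set_option linter.unusedSectionVars false

namespace Pool.Agent.NT28

open Matrix Polynomial VC IntermediateField

universe u

section mixed

variable {R : Type*} [CommRing R]

/-- The mixed discriminant. -/
def mxd (A B C : Matrix (Fin 3) (Fin 3) R) : R :=
  (A + B + C).det - A.det - B.det - C.det - trace (A.adjugate * B) - trace (B.adjugate * A) -
    trace (A.adjugate * C) - trace (C.adjugate * A) - trace (B.adjugate * C) - trace (C.adjugate * B)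

set_option maxHeartbeats 4000000 in
lemma det_lin (A B C : Matrix (Fin 3) (Fin 3) R) (x y : R) :
    (x • A + y • B + C).det = B.det * y ^ 3 + (trace (B.adjugate * A) * x + trace (B.adjugate * C)) * y ^ 2 +
      (trace (A.adjugate * B) * x ^ 2 + mxd A B C * x + trace (C.adjugate * B)) * y +
      (A.det * x ^ 3 + trace (A.adjugate * C) * x ^ 2 + trace (C.adjugate * A) * x + C.det) := by
  unfold mxd
  simp only [Matrix.det_fin_three, Matrix.adjugate_fin_three, Matrix.trace, Matrix.diag_apply, Matrix.mul_apply,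
    Fin.sum_univ_three, Matrix.of_apply, Matrix.cons_val', Matrix.cons_val_zero, Matrix.cons_val_one,
    Matrix.cons_val, Matrix.cons_val_fin_one, Matrix.add_apply, Matrix.smul_apply, smul_eq_mul]
  ring

end mixed

section pts

variable {k : Type u} [Field k] [IsAlgClosed k] [CharZero k] {Q : Fin 3 → Matrix (Fin 3) (Fin 3) k}

lemma forall3 {p : Fin 3 → Prop} (h0 : p 0) (h1 : p 1) (h2 : p 2) : ∀ i, p i := by
  intro i
  match i with
  | 0 => exact h0
  | 1 => exact h1
  | 2 => exact h2

/-- The line `e 2 = 0` is not contained in the discriminant curve. -/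
theorem exists_pt (hQ : Smo Q) : ∃ a : k, dl Q ![a, 1, 0] ≠ 0 := by
  by_contra hcon
  push Not at hcon
  obtain ⟨P, hP0, hP1, hP2⟩ : ∃ P : Fin 3 → k[X], P 0 = X ∧ P 1 = 1 ∧ P 2 = 0 := ⟨![X, 1, 0], rfl, rfl, rfl⟩
  obtain ⟨e, he, he1⟩ : ∃ e : k → Fin 3 → k, (∀ t, e t = ![t, 1, 0]) ∧ ∀ t, e t 0 = t ∧ e t 1 = 1 ∧ e t 2 = 0 :=
    ⟨fun t => ![t, 1, 0], fun _ => rfl, fun _ => ⟨rfl, rfl, rfl⟩⟩
  have hcon' : ∀ t, dl Q (e t) = 0 := fun t => by rw [he]; exact hcon t
  have hne : ∀ t, e t ≠ 0 := by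
    intro t h
    have h1 := congrFun h 1
    rw [(he1 t).2.1] at h1
    exact one_ne_zero h1
  have hev : ∀ t : k, (fun i => eval t (P i)) = e t := by
    intro t
    funext i
    revert i
    refine forall3 ?_ ?_ ?_
    · rw [hP0, (he1 t).1, eval_X]
    · rw [hP1, (he1 t).2.1, eval_one]
    · rw [hP2, (he1 t).2.2, eval_zero]
  have hext : ∀ t : k, (fun i => (ext k[X] Q i).map (evalRingHom t)) = Q := by
    intro t
    funext i
    ext a b
    simp [ext]
  have hdl : ∀ t : k, eval t (dl (ext k[X] Q) P) = dl Q (e t) := by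
    intro t
    have h1 := dl_map (evalRingHom t) (ext k[X] Q) P
    rw [hext] at h1
    simp only [coe_evalRingHom] at h1
    rw [hev] at h1
    exact h1
  have hgr : ∀ (t : k) (i : Fin 3), eval t (gr (ext k[X] Q) P i) = gr Q (e t) i := by
    intro t i
    have h1 := gr_map (evalRingHom t) (ext k[X] Q) P i
    rw [hext] at h1
    simp only [coe_evalRingHom] at h1
    rw [hev] at h1
    exact h1
  have hz : dl (ext k[X] Q) P = 0 := Polynomial.funext fun t => by rw [hdl, hcon', eval_zero]
  have hQQ : ext k Q = Q := by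
    funext i
    ext a b
    simp [ext]
  have e1 := dl_deriv Q P
  have e2 := euler (ext k[X] Q) P
  have hn : ∀ i, (P i).natDegree ≤ 1 := by
    refine forall3 ?_ ?_ ?_
    · rw [hP0]; exact natDegree_X_le
    · rw [hP1, natDegree_one]; exact zero_le_one
    · rw [hP2, natDegree_zero]; exact zero_le_one
  have hdc := dl_coeff Q P 1 hn
  have hgc := gr_coeff Q P 1 hn
  rw [hQQ] at hdc
  simp only [hQQ] at hgc
  obtain ⟨G, hG⟩ : ∃ G : Fin 3 → k[X], G = gr (ext k[X] Q) P := ⟨_, rfl⟩
  rw [← hG] at e1 e2 hgc hgr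
  rw [hz, Fin.sum_univ_three] at e1 e2
  rw [hz, coeff_zero] at hdc
  rw [hP0, hP1, hP2] at e1 e2
  simp only [derivative_zero, derivative_X, derivative_one, one_mul, zero_mul, add_zero] at e1 e2
  rw [← e1] at e2
  simp only [mul_zero, zero_add] at e2
  have h2 : (G 2).natDegree = 0 := by
    by_contra hne2
    have hdeg : (G 2).degree ≠ 0 := fun h => hne2 (natDegree_eq_of_degree_eq_some h)
    obtain ⟨t, ht⟩ := IsAlgClosed.exists_root _ hdeg
    obtain ⟨i, hi⟩ := hQ.2 (e t) (hne t) (hcon' t)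
    apply hi
    rw [← hgr]
    clear hi
    revert i
    refine forall3 ?_ ?_ ?_
    · rw [← e1, eval_zero]
    · rw [e2, eval_zero]
    · exact ht
  have hlead : (fun i => (P i).coeff 1) ≠ 0 := by
    intro h
    have h1 := congrFun h 0
    simp only [hP0, coeff_X_one, Pi.zero_apply] at h1
    exact one_ne_zero h1
  obtain ⟨i, hi⟩ := hQ.2 _ hlead hdc.symm
  apply hi
  rw [← hgc]
  clear hi
  revert i
  refine forall3 ?_ ?_ ?_
  · rw [← e1, coeff_zero]
  · rw [e2, coeff_zero]
  · exact coeff_eq_zero_of_natDegree_lt (by rw [h2]; norm_num)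

end pts

section rel

variable {k K : Type u} [Field k] [IsAlgClosed k] [CharZero k] [Field K] [Algebra k K]
  {Q : Fin 3 → Matrix (Fin 3) (Fin 3) k}

/-- After a change of coordinates `x = u + a y` the function `y` is integral over `k[u]`. -/
theorem exists_rel (hQ : Smo Q) (x y : K) (hd : dl (ext K Q) ![x, y, 1] = 0) :
    ∃ (a : k) (p1 p2 p3 : k[X]), p1.natDegree ≤ 1 ∧ p2.natDegree ≤ 2 ∧ p3.natDegree ≤ 3 ∧
      y ^ 3 + aeval (x - algebraMap k K a * y) p1 * y ^ 2 + aeval (x - algebraMap k K a * y) p2 * y +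
        aeval (x - algebraMap k K a * y) p3 = 0 := by
  obtain ⟨a, ha⟩ := exists_pt hQ
  -- the matrices
  obtain ⟨A, hA⟩ : ∃ A, A = Q 0 := ⟨_, rfl⟩
  obtain ⟨B, hB⟩ : ∃ B, B = a • Q 0 + Q 1 := ⟨_, rfl⟩
  obtain ⟨C₀, hC₀⟩ : ∃ C₀, C₀ = Q 2 := ⟨_, rfl⟩
  have hBd : B.det ≠ 0 := by
    have : qm Q ![a, 1, 0] = B := by
      rw [hB]
      simp [qm, Fin.sum_univ_three]
    rw [← this]
    exact ha
  obtain ⟨u, hu⟩ : ∃ u, u = x - algebraMap k K a * y := ⟨_, rfl⟩
  have hxu : x = u + algebraMap k K a * y := by rw [hu]; ring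
  obtain ⟨β, hβ⟩ : ∃ β : k, β = B.det⁻¹ := ⟨_, rfl⟩
  have hβB : β * B.det = 1 := by rw [hβ]; exact inv_mul_cancel₀ hBd
  obtain ⟨p1, hp1⟩ : ∃ p : k[X], p = C (β * trace (B.adjugate * A)) * X + C (β * trace (B.adjugate * C₀)) := ⟨_, rfl⟩
  obtain ⟨p2, hp2⟩ : ∃ p : k[X], p = C (β * trace (A.adjugate * B)) * X ^ 2 + C (β * mxd A B C₀) * X +
    C (β * trace (C₀.adjugate * B)) := ⟨_, rfl⟩
  obtain ⟨p3, hp3⟩ : ∃ p : k[X], p = C (β * A.det) * X ^ 3 + C (β * trace (A.adjugate * C₀)) * X ^ 2 +
    C (β * trace (C₀.adjugate * A)) * X + C (β * C₀.det) := ⟨_, rfl⟩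
  have d1 : p1.natDegree ≤ 1 := by rw [hp1]; compute_degree
  have d2' : p2.natDegree ≤ 2 := by rw [hp2]; compute_degree
  have d3 : p3.natDegree ≤ 3 := by rw [hp3]; compute_degree
  refine ⟨a, p1, p2, p3, d1, d2', d3, ?_⟩
  rw [← hu]
  have hq : qm (ext K Q) ![x, y, 1] = u • A.map (algebraMap k K) + y • B.map (algebraMap k K) +
      C₀.map (algebraMap k K) := by
    rw [hA, hB, hC₀, hxu]
    ext i j
    simp [qm, ext, Matrix.sum_apply, Fin.sum_univ_three]
    ring
  have h1 : dl (ext K Q) ![x, y, 1] = _ := (congrArg Matrix.det hq).trans (det_lin _ _ _ u y)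
  have hdet : ∀ M : Matrix (Fin 3) (Fin 3) k, (M.map (algebraMap k K)).det = algebraMap k K M.det := fun M =>
    (RingHom.map_det (algebraMap k K) M).symm
  have hadj : ∀ M : Matrix (Fin 3) (Fin 3) k, (M.map (algebraMap k K)).adjugate = M.adjugate.map (algebraMap k K) :=
    fun M => (RingHom.map_adjugate (algebraMap k K) M).symm
  have htr : ∀ M N : Matrix (Fin 3) (Fin 3) k,
      trace ((M.map (algebraMap k K)).adjugate * N.map (algebraMap k K)) = algebraMap k K (trace (M.adjugate * N)) := by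
    intro M N
    rw [hadj, ← Matrix.map_mul]
    simp only [Matrix.trace, Fin.sum_univ_three, Matrix.diag_apply, Matrix.map_apply, map_add]
  have hmx : mxd (A.map (algebraMap k K)) (B.map (algebraMap k K)) (C₀.map (algebraMap k K)) =
      algebraMap k K (mxd A B C₀) := by
    unfold mxd
    rw [← Matrix.map_add _ (map_add _), ← Matrix.map_add _ (map_add _)]
    simp only [hdet, htr, map_sub]
  rw [hd, hdet, hdet, hdet, htr, htr, htr, htr, htr, htr, hmx] at h1
  rw [hp1, hp2, hp3]
  simp only [map_add, map_mul, map_pow, aeval_X, aeval_C]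
  have hβ1 : algebraMap k K β * algebraMap k K B.det = 1 := by rw [← map_mul, hβB, map_one]
  linear_combination (-(algebraMap k K β)) * h1 - y ^ 3 * hβ1

lemma gen_u (a : k) (x y : K) (S : Set K) :
    IntermediateField.adjoin k ({x, y} ∪ S) = IntermediateField.adjoin k ({x - algebraMap k K a * y, y} ∪ S) := by
  apply le_antisymm
  · rw [IntermediateField.adjoin_le_iff]
    have hyu : y ∈ IntermediateField.adjoin k ({x - algebraMap k K a * y, y} ∪ S) :=
      IntermediateField.subset_adjoin _ _ (by simp)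
    have huu : x - algebraMap k K a * y ∈ IntermediateField.adjoin k ({x - algebraMap k K a * y, y} ∪ S) :=
      IntermediateField.subset_adjoin _ _ (by simp)
    rintro z ((rfl | rfl) | h)
    · have h1 := add_mem huu (mul_mem (IntermediateField.algebraMap_mem _ a) hyu)
      rw [sub_add_cancel] at h1
      exact h1
    · exact hyu
    · exact IntermediateField.subset_adjoin _ _ (Or.inr h)
  · rw [IntermediateField.adjoin_le_iff]
    have hyu : y ∈ IntermediateField.adjoin k ({x, y} ∪ S) := IntermediateField.subset_adjoin _ _ (by simp)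
    have huu : x ∈ IntermediateField.adjoin k ({x, y} ∪ S) := IntermediateField.subset_adjoin _ _ (by simp)
    rintro z ((rfl | rfl) | h)
    · exact sub_mem huu (mul_mem (IntermediateField.algebraMap_mem _ a) hyu)
    · exact hyu
    · exact IntermediateField.subset_adjoin _ _ (Or.inr h)

lemma u_tr (a : k) (x y : K) (hxy : ¬ IsAlgebraic k x ∨ ¬ IsAlgebraic k y) (p1 p2 p3 : k[X])
    (hrel : y ^ 3 + aeval (x - algebraMap k K a * y) p1 * y ^ 2 + aeval (x - algebraMap k K a * y) p2 * y +
        aeval (x - algebraMap k K a * y) p3 = 0) : Transcendental k (x - algebraMap k K a * y) := by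
  obtain ⟨u, hu⟩ : ∃ u, u = x - algebraMap k K a * y := ⟨_, rfl⟩
  have hxu : x = u + algebraMap k K a * y := by rw [hu]; ring
  rw [← hu] at hrel ⊢
  intro hua
  have hya : IsAlgebraic k y := by
    have h1 : IsIntegral k⟮u⟯ y := cub_integral u y p1 p2 p3 hrel
    have h2 : Algebra.IsAlgebraic k k⟮u⟯ := by
      have : IsIntegral k u := hua.isIntegral
      have := IntermediateField.adjoin.finiteDimensional this
      infer_instance
    exact h1.isAlgebraic.restrictScalars k
  have hxa : IsAlgebraic k x := by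
    rw [hxu]
    exact hua.add ((isAlgebraic_algebraMap a).mul hya)
  rcases hxy with h | h
  · exact h hxa
  · exact h hya

/-- The poles of `u` are the poles of `(x : y : 1)`. -/
theorem poles_cond (hK : IsFunctionField k K) (a : k) (x y : K) (p1 p2 p3 : k[X]) (d1 : p1.natDegree ≤ 1)
    (d2 : p2.natDegree ≤ 2) (d3 : p3.natDegree ≤ 3) (hu0 : x - algebraMap k K a * y ≠ 0)
    (hrel : y ^ 3 + aeval (x - algebraMap k K a * y) p1 * y ^ 2 + aeval (x - algebraMap k K a * y) p2 * y +
        aeval (x - algebraMap k K a * y) p3 = 0) (P : Place k K) :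
    (0 ≤ ord P.ring x + FF.poles hK (x - algebraMap k K a * y) P ∨ x = 0) ∧
    (0 ≤ ord P.ring y + FF.poles hK (x - algebraMap k K a * y) P ∨ y = 0) ∧
    (FF.poles hK (x - algebraMap k K a * y) P = 0 ∨ ord P.ring x = - FF.poles hK (x - algebraMap k K a * y) P ∨
      ord P.ring y = - FF.poles hK (x - algebraMap k K a * y) P) := by
  obtain ⟨u, hu⟩ : ∃ u, u = x - algebraMap k K a * y := ⟨_, rfl⟩
  have hxu : x = u + algebraMap k K a * y := by rw [hu]; ring
  rw [← hu] at hrel hu0 ⊢
  have hyP : 0 ≤ ord P.ring y + FF.poles hK u P ∨ y = 0 := (y_ord hK P u y hu0 p1 p2 p3 d1 d2 d3 hrel).symm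
  refine ⟨?_, hyP, ?_⟩
  · rcases eq_or_ne x 0 with hx0 | hx0
    · exact Or.inr hx0
    · left
      obtain ⟨c, hc0, hc, hcP, hcu⟩ := exists_c hK P u hu0
      have hcy : c * y ∈ P.ring := mem_y P c u y hcP hcu p1 p2 p3 d1 d2 d3 hrel
      have hcx : c * x ∈ P.ring := by
        have : c * x = c * u + algebraMap k K a * (c * y) := by rw [hxu]; ring
        rw [this]
        exact add_mem hcu (mul_mem (P.algebraMap_mem a) hcy)
      have h1 := (FF.ord_nonneg_iff hK P (mul_ne_zero hc0 hx0)).mpr hcx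
      rw [FF.ord_mul hK P hc0 hx0, hc] at h1
      omega
  · by_cases h0 : FF.poles hK u P = 0
    · exact Or.inl h0
    · right
      have hpu : ord P.ring u = - FF.poles hK u P := by
        rw [FF.poles_apply] at h0 ⊢
        rcases le_total (- ord P.ring u) 0 with h | h
        · rw [max_eq_right h] at h0
          exact absurd rfl h0
        · rw [max_eq_left h, neg_neg]
      by_cases hya : algebraMap k K a * y = 0
      · left
        rw [hxu, hya, add_zero, hpu]
      · have ha0 : a ≠ 0 := fun h => hya (by rw [h, map_zero, zero_mul])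
        have hy0 : y ≠ 0 := right_ne_zero_of_mul hya
        have ha0' : algebraMap k K a ≠ 0 := (_root_.map_ne_zero _).mpr ha0
        have hordy : ord P.ring (algebraMap k K a * y) = ord P.ring y := by
          rw [FF.ord_mul hK P ha0' hy0, FF.ord_algebraMap hK P ha0, zero_add]
        have h1 := hyP.resolve_right hy0
        rcases eq_or_lt_of_le h1 with h2 | h2
        · right
          omega
        · left
          rw [hxu, (FF.ord_add_eq_left hK P hu0 hya (by rw [hordy, hpu]; omega)).2, hpu]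

end rel

theorem d : StmtD.{u} := by
  intro k K _ _ _ _ _ Q hQ x y hxy hd hg
  obtain ⟨a, p1, p2, p3, d1, d2', d3, hrel⟩ := exists_rel hQ x y hd
  have hgu : IntermediateField.adjoin k {x - algebraMap k K a * y, y} = ⊤ := by
    have := gen_u a x y (∅ : Set K)
    rw [Set.union_empty, Set.union_empty, hg] at this
    exact this.symm
  have hu_tr := u_tr a x y hxy p1 p2 p3 hrel
  have hK : IsFunctionField k K := cub_ff _ y p1 p2 p3 hu_tr hgu hrel
  refine ⟨hK, ?_⟩
  obtain ⟨g, hgen⟩ := FF.exists_genus hK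
  refine ⟨g, hgen, cub_genus hK _ y p1 p2 p3 hu_tr d1 d2' d3 hgu hrel g hgen, fun i hi => ?_⟩
  have hu0 : x - algebraMap k K a * y ≠ 0 := by
    intro h0
    rw [h0] at hu_tr
    exact hu_tr isAlgebraic_zero
  have hsum : ((FF.poles hK (x - algebraMap k K a * y)).sum fun _ m => m) ≤ 3 := by
    rw [← FF.deg_eq, FF.deg_poles hK hu_tr]
    exact_mod_cast (cub_basis _ y p1 p2 p3 hgu hrel).2.1
  have hP := poles_cond hK a x y p1 p2 p3 d1 d2' d3 hu0 hrel
  obtain ⟨E, hE, hE'⟩ := d2 hK hQ x y hd (FF.poles hK _) (FF.poles_nonneg hK _) (fun P => (hP P).1)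
    (fun P => (hP P).2.1) (fun P => (hP P).2.2) i hi
  exact ⟨E, by rw [hE]; exact hsum, hE'⟩

end Pool.Agent.NT28
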