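import Mathlib
import Pool.Agent.Helper28.NT.Defs2
import Pool.Agent.Helper50.KS.Qd

/-!
# NT, block F: projective change of the coordinates `s, t`
-/

set_option autoImplicit false
set_option linter.unusedSectionVars false

namespace Pool.Agent.NT28

open Pool.Agent.Helper15.KP
open Pool.Agent.Helper83.PC (act cub_act)
open Pool.Agent.Helper83.KPA (cf cf_spec)

universe u

variable {k R : Type u} [Field k] [IsAlgClosed k] [CharZero k] [Field R] [Algebra k R]

lemma cub_one {N : Type*} [CommRing N] (c : Fin 10 → N) (s t : N) :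
    Pool.Agent.Helper15.KP.cub c s t = Pool.Agent.Helper83.PC.cub c s t 1 := by
  unfold Pool.Agent.Helper15.KP.cub Pool.Agent.Helper83.PC.cub
  ring

/-- The value of the cubic with the parameter `e`. -/
lemma cub_ce {N : Type u} [Field N] [Algebra k N] (f : Fin 3 → MvPolynomial (Fin 3) k)
    (hf : ∀ i, (f i).IsHomogeneous 3) (e x : Fin 3 → N) :
    Pool.Agent.Helper83.PC.cub (ce f e) (x 0) (x 1) (x 2) = ∑ i, e i * MvPolynomial.aeval x (f i) := by
  simp only [cf_spec (hf _) x]
  unfold ce Pool.Agent.Helper83.PC.cub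
  simp only [Fin.sum_univ_three]
  ring

theorem st_cub {s t : R} (hst : AlgebraicIndependent k ![s, t]) (hgen : IntermediateField.adjoin k {s, t} = ⊤)
    (M : Matrix (Fin 3) (Fin 3) k) (hM : M.det ≠ 0) :
    ∃ s1 t1 : R, AlgebraicIndependent k ![s1, t1] ∧ IntermediateField.adjoin k {s1, t1} = ⊤ ∧
      ∀ f : Fin 3 → MvPolynomial (Fin 3) k, (∀ i, (f i).IsHomogeneous 3) →
      ∀ (N : Type u) [Field N] [Algebra k N] [Algebra R N] [IsScalarTower k R N] (e : Fin 3 → N),
        e 0 * algebraMap R N (MvPolynomial.aeval ![s, t, 1] (f 0)) +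
          e 1 * algebraMap R N (MvPolynomial.aeval ![s, t, 1] (f 1)) +
          e 2 * algebraMap R N (MvPolynomial.aeval ![s, t, 1] (f 2)) = 0 →
        cub (fun j => act (ce f e) (M.map (algebraMap k N)) j) (algebraMap R N s1) (algebraMap R N t1) = 0 := by
  obtain ⟨s1, t1, D, hind, htop, hD⟩ := Pool.Agent.Helper50.KS.exists_proj hst hgen M hM
  refine ⟨s1, t1, hind, ?_, fun f hf N _ _ _ _ e he => ?_⟩
  · rw [← htop]
    congr 1
    ext x
    simp [eq_comm]
  · obtain ⟨x, hx⟩ : ∃ x : Fin 3 → N, ∀ i, x i = algebraMap R N (D * (![s, t, 1] : Fin 3 → R) i) := ⟨_, fun _ => rfl⟩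
    have hx' : ∀ i, x i = algebraMap k N (M i 0) * algebraMap R N s1 + algebraMap k N (M i 1) * algebraMap R N t1 +
        algebraMap k N (M i 2) * 1 := by
      intro i
      rw [hx, hD]
      simp only [map_add, map_mul, mul_one, ← IsScalarTower.algebraMap_apply]
    have h1 := cub_ce f hf e x
    have hval : ∀ P : MvPolynomial (Fin 3) k, P.IsHomogeneous 3 → MvPolynomial.aeval x P =
        algebraMap R N D ^ 3 * algebraMap R N (MvPolynomial.aeval ![s, t, 1] P) := by
      intro P hP
      have h2 : x = fun i => algebraMap R N D * algebraMap R N ((![s, t, 1] : Fin 3 → R) i) := by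
        funext i
        rw [hx, map_mul]
      rw [← MvPolynomial.aeval_algebraMap_apply, cf_spec hP, cf_spec hP, h2]
      unfold Pool.Agent.Helper83.PC.cub
      simp only [Function.comp_apply]
      ring
    have h3 : Pool.Agent.Helper83.PC.cub (ce f e) (x 0) (x 1) (x 2) = 0 := by
      rw [h1, Fin.sum_univ_three, hval _ (hf 0), hval _ (hf 1), hval _ (hf 2)]
      linear_combination (algebraMap R N D ^ 3) * he
    have h4 := cub_act (ce f e) (M.map (algebraMap k N)) (algebraMap R N s1) (algebraMap R N t1) 1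
    rw [cub_one]
    refine h4.trans ?_
    simp only [Matrix.map_apply]
    rw [← hx' 0, ← hx' 1, ← hx' 2]
    exact h3

end Pool.Agent.NT28
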