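import Mathlib
import Pool.Agent.Helper28.NT.Defs3
import Pool.Agent.Helper40.NT.D

/-!
# NT block P: the curve of the lines in the singular conics, reductions at the places (definitions)
-/

set_option autoImplicit false

namespace Pool.Agent.NT28

open VC

universe u

/-- The data of StmtP. -/
structure Cov (k K : Type u) [Field k] [IsAlgClosed k] [CharZero k] [Field K] [Algebra k K] where
  hK : IsFunctionField k K
  Q : Fin 3 → Matrix (Fin 3) (Fin 3) k
  hQ : Smo Q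
  x : K
  y : K
  gnr : ¬ IsAlgebraic k x ∨ ¬ IsAlgebraic k y
  hdl : dl (ext K Q) ![x, y, 1] = 0
  v : Fin 3 → K
  l : Fin 3 → K
  m : Fin 3 → K
  hv : ∀ (z : Fin 3 → K) (a : Fin 3), mv (qm (ext K Q) ![x, y, 1]) z a + crs v z a / 2 = m a * dot l z
  gen : IntermediateField.adjoin k ({x, y} ∪ Set.range v) = ⊤
  ι : K ≃ₐ[k] K
  ιx : ι x = x
  ιy : ι y = y
  ιv : ∀ a, ι (v a) = - v a

variable {k K : Type u} [Field k] [IsAlgClosed k] [CharZero k] [Field K] [Algebra k K]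

/-- The point `(x : y : 1)`. -/
def Cov.e (D : Cov k K) : Fin 3 → K := ![D.x, D.y, 1]

/-- The conjugate place. -/
def Cov.iP (D : Cov k K) (P : Place k K) : Place k K :=
  Place.comap D.hK D.hK ((D.ι : K ≃ₐ[k] K) : K →ₐ[k] K) P

/-- The reduction of `e, v, l, m` at a place: `c e, c v, cl l, cm m` with `c = cl * cm` are integral and reduce to
nonzero vectors over `k`. -/
structure Red (D : Cov k K) (P : Place k K) where
  c : K
  cl : K
  cm : K
  hc : c = cl * cm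
  cl0 : cl ≠ 0
  cm0 : cm ≠ 0
  e : Fin 3 → k
  v : Fin 3 → k
  l : Fin 3 → k
  m : Fin 3 → k
  e0 : e ≠ 0
  v0 : v ≠ 0
  l0 : l ≠ 0
  m0 : m ≠ 0
  re : ∀ j, c * D.e j - algebraMap k K (e j) ∈ P.ring.nonunits
  rv : ∀ j, c * D.v j - algebraMap k K (v j) ∈ P.ring.nonunits
  rl : ∀ j, cl * D.l j - algebraMap k K (l j) ∈ P.ring.nonunits
  rm : ∀ j, cm * D.m j - algebraMap k K (m j) ∈ P.ring.nonunits
  dl0 : dl D.Q e = 0
  rel : ∀ (z : Fin 3 → k) (a : Fin 3), mv (qm D.Q e) z a + crs v z a / 2 = m a * dot l z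

/-- BLOCK P1. -/
def StmtP1 : Prop :=
  ∀ (k K : Type u) [Field k] [IsAlgClosed k] [CharZero k] [Field K] [Algebra k K] (D : Cov k K) (P : Place k K),
    Nonempty (Red D P)

/-- BLOCK P1, uniqueness. -/
def StmtP1u : Prop :=
  ∀ (k K : Type u) [Field k] [IsAlgClosed k] [CharZero k] [Field K] [Algebra k K] (D : Cov k K) (P : Place k K)
    (R R' : Red D P), ∃ α β γ : k, α ≠ 0 ∧ β ≠ 0 ∧ γ ≠ 0 ∧ (∀ j, R'.e j = α * R.e j) ∧ (∀ j, R'.v j = α * R.v j) ∧
      (∀ j, R'.l j = β * R.l j) ∧ ∀ j, R'.m j = γ * R.m j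

/-- BLOCK P1, the conjugate place. -/
def StmtP1i : Prop :=
  ∀ (k K : Type u) [Field k] [IsAlgClosed k] [CharZero k] [Field K] [Algebra k K] (D : Cov k K) (P : Place k K)
    (R : Red D P), ∃ R' : Red D (D.iP P), R'.e = R.e ∧ (∀ j, R'.v j = - R.v j) ∧ R'.l = R.m ∧ R'.m = R.l

/-- BLOCK P2. -/
def StmtP2 : Prop :=
  ∀ (k K : Type u) [Field k] [IsAlgClosed k] [CharZero k] [Field K] [Algebra k K] (D : Cov k K),
    ∃ A : Place k K →₀ ℤ, (A.sum fun _ m => m) ≤ 3 ∧ ∀ (P : Place k K) (R : Red D P), ord P.ring R.cl = A P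

end Pool.Agent.NT28
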