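import Mathlib
import Pool.Agent.Helper40.NT.PD

/-!
# NT block P1: the reductions at the places
-/

set_option autoImplicit false
set_option linter.unusedSectionVars false

namespace Pool.Agent.NT28

open VC Matrix

universe u

section mat

variable {R : Type*} [CommRing R]

/-- The matrix of the cross product. -/
def cmx (v : Fin 3 → R) : Matrix (Fin 3) (Fin 3) R := !![0, -v 2, v 1; v 2, 0, -v 0; -v 1, v 0, 0]

lemma cmx_mul (v z : Fin 3 → R) (a : Fin 3) : crs v z a = ∑ b, cmx v a b * z b := by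
  revert a
  refine forall3 ?_ ?_ ?_ <;> simp [crs, cmx, Fin.sum_univ_three] <;> ring

lemma cmx_symm (v : Fin 3 → R) (a b : Fin 3) : cmx v a b = - cmx v b a := by
  revert b
  revert a
  refine forall3 ?_ ?_ ?_ <;> refine forall3 ?_ ?_ ?_ <;> simp [cmx]

lemma cmx_neg (v : Fin 3 → R) (a b : Fin 3) : cmx (fun j => - v j) a b = - cmx v a b := by
  revert b
  revert a
  refine forall3 ?_ ?_ ?_ <;> refine forall3 ?_ ?_ ?_ <;> simp [cmx]

lemma cmx_smul (c : R) (v : Fin 3 → R) (a b : Fin 3) : cmx (fun j => c * v j) a b = c * cmx v a b := by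
  revert b
  revert a
  refine forall3 ?_ ?_ ?_ <;> refine forall3 ?_ ?_ ?_ <;> simp [cmx]

lemma cmx_map {S : Type*} [CommRing S] (φ : R →+* S) (v : Fin 3 → R) (a b : Fin 3) :
    φ (cmx v a b) = cmx (fun j => φ (v j)) a b := by
  revert b
  revert a
  refine forall3 ?_ ?_ ?_ <;> refine forall3 ?_ ?_ ?_ <;> simp [cmx]

/-- The relation in matrix form. -/
lemma rel_iff {N : Type*} [Field N] (A : Matrix (Fin 3) (Fin 3) N) (v l m : Fin 3 → N) :
    (∀ (z : Fin 3 → N) (a : Fin 3), mv A z a + crs v z a / 2 = m a * dot l z) ↔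
      ∀ a b, A a b + cmx v a b / 2 = m a * l b := by
  constructor
  · intro h a b
    have h1 := h (fun j => if j = b then 1 else 0) a
    rw [cmx_mul] at h1
    simp only [mv, mul_ite, mul_one, mul_zero, Finset.sum_ite_eq', Finset.mem_univ, if_true] at h1
    rw [h1]
    congr 1
    revert b
    refine forall3 ?_ ?_ ?_ <;> intro _ <;> simp [dot]
  · intro h z a
    rw [cmx_mul]
    simp only [mv, Fin.sum_univ_three, dot]
    linear_combination z 0 * h a 0 + z 1 * h a 1 + z 2 * h a 2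

end mat

section comap

variable {k K : Type u} [Field k] [IsAlgClosed k] [CharZero k] [Field K] [Algebra k K]

lemma Cov.mem_iP (D : Cov k K) (P : Place k K) (z : K) : z ∈ (D.iP P).ring ↔ D.ι z ∈ P.ring := Iff.rfl

lemma Cov.nonunits_iP (D : Cov k K) (P : Place k K) (z : K) :
    z ∈ (D.iP P).ring.nonunits ↔ D.ι z ∈ P.ring.nonunits := by
  rw [ValuationSubring.mem_nonunits_iff_or, ValuationSubring.mem_nonunits_iff_or, D.mem_iP, map_inv₀,
    EmbeddingLike.map_eq_zero_iff]

/-- Every nonzero vector can be made primitive. -/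
lemma exists_prim (hK : IsFunctionField k K) (P : Place k K) (w : Fin 3 → K) (hw : w ≠ 0) :
    ∃ c : K, c ≠ 0 ∧ (∀ j, c * w j ∈ P.ring) ∧ ∃ j, c * w j = 1 := by
  obtain ⟨j₀, -, hj⟩ := Finset.exists_max_image Finset.univ (fun j => FF.val hK P (w j)) ⟨0, Finset.mem_univ _⟩
  have h0 : w j₀ ≠ 0 := by
    intro h0
    apply hw
    funext j
    have h1 : FF.val hK P (w j) ≤ FF.val hK P (w j₀) := hj j (Finset.mem_univ _)
    rw [h0, map_zero, le_zero_iff, map_eq_zero] at h1
    exact h1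
  refine ⟨(w j₀)⁻¹, inv_ne_zero h0, fun j => ?_, j₀, inv_mul_cancel₀ h0⟩
  rw [← FF.val_le_one_iff hK, map_mul, map_inv₀]
  have h1 := hj j (Finset.mem_univ _)
  have h2 : FF.val hK P (w j₀) ≠ 0 := by
    rw [Ne, map_eq_zero]
    exact h0
  rw [inv_mul_le_iff₀ (zero_lt_iff.mpr h2), mul_one]
  exact h1

end comap

section red

variable {k K : Type u} [Field k] [IsAlgClosed k] [CharZero k] [Field K] [Algebra k K]

lemma Cov.charZero (_ : Cov k K) : CharZero K := charZero_of_injective_algebraMap (algebraMap k K).injective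

lemma Cov.e_ne (D : Cov k K) : D.e ≠ 0 := fun h => one_ne_zero (congrFun h 2)

lemma Cov.dl_e (D : Cov k K) : dl (ext K D.Q) D.e = 0 := D.hdl

lemma Cov.vv (D : Cov k K) (a b : Fin 3) : D.v a * D.v b = - 4 * (qm (ext K D.Q) D.e).adjugate a b := by
  have := D.charZero
  exact adj_lines (qm_symm _ (smo_ext D.hQ).1 _) D.hv a b

lemma Cov.mat (D : Cov k K) (a b : Fin 3) : qm (ext K D.Q) D.e a b + cmx D.v a b / 2 = D.m a * D.l b :=
  (rel_iff _ _ _ _).mp D.hv a b

lemma Cov.v_ne (D : Cov k K) : D.v ≠ 0 := by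
  intro h0
  obtain ⟨j, hj⟩ := exists_adj (smo_ext (L := K) D.hQ) D.e D.e_ne D.dl_e
  have h1 := D.vv j j
  rw [h0, Pi.zero_apply, zero_mul] at h1
  have := D.charZero
  have h2 : (4 : K) ≠ 0 := by norm_num
  apply hj
  have h3 : (4 : K) * (qm (ext K D.Q) D.e).adjugate j j = 0 := by linear_combination h1
  exact (mul_eq_zero.mp h3).resolve_left h2

/-- If the relation holds with `v ≠ 0` then `l, m ≠ 0`. -/
lemma lm_ne {N : Type*} [Field N] [CharZero N] {A : Matrix (Fin 3) (Fin 3) N} (hA : ∀ a b, A a b = A b a)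
    {v l m : Fin 3 → N} (hv : v ≠ 0) (h : ∀ a b, A a b + cmx v a b / 2 = m a * l b) : l ≠ 0 ∧ m ≠ 0 := by
  have key : ¬ ∀ a b, m a * l b = 0 := by
    intro h0
    apply hv
    have h1 : ∀ a b, cmx v a b = 0 := by
      intro a b
      have e1 := h a b
      have e2 := h b a
      rw [h0, cmx_symm v a b] at e1
      rw [h0, hA b a] at e2
      rw [cmx_symm v a b]
      have h2 : (2 : N) ≠ 0 := two_ne_zero
      have h3 : cmx v b a = 0 := by
        linear_combination e2 - e1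
      rw [h3, neg_zero]
    funext j
    revert j
    refine forall3 ?_ ?_ ?_
    · exact h1 2 1
    · exact h1 0 2
    · exact h1 1 0
  refine ⟨fun h0 => key fun a b => by rw [h0, Pi.zero_apply, mul_zero],
    fun h0 => key fun a b => by rw [h0, Pi.zero_apply, zero_mul]⟩

lemma Cov.sym (D : Cov k K) (a b : Fin 3) : qm (ext K D.Q) D.e a b = qm (ext K D.Q) D.e b a :=
  congrFun (congrFun (qm_symm _ (smo_ext (L := K) D.hQ).1 D.e) b) a

lemma Cov.l_ne (D : Cov k K) : D.l ≠ 0 := by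
  have := D.charZero
  exact (lm_ne D.sym D.v_ne D.mat).1

lemma Cov.m_ne (D : Cov k K) : D.m ≠ 0 := by
  have := D.charZero
  exact (lm_ne D.sym D.v_ne D.mat).2

theorem p1 : StmtP1.{u} := by
  intro k K _ _ _ _ _ D P
  have hcK := D.charZero
  have hK := D.hK
  obtain ⟨c, hc0, hcP, j₀, hj₀⟩ := exists_prim hK P D.e D.e_ne
  obtain ⟨f, hf⟩ : ∃ f : Fin 3 → P.ring, ∀ j, (f j : K) = c * D.e j := ⟨fun j => ⟨_, hcP j⟩, fun j => rfl⟩
  obtain ⟨ρ, hρ⟩ : ∃ ρ : k →+* P.ring, ∀ a, (ρ a : K) = algebraMap k K a :=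
    ⟨(algebraMap k K).codRestrict P.ring.toSubring P.algebraMap_mem, fun a => rfl⟩
  obtain ⟨ψ, hψ⟩ : ∃ ψ : P.ring →+* K, ∀ a, ψ a = (a : K) := ⟨P.ring.subtype, fun a => rfl⟩
  obtain ⟨η, hη⟩ : ∃ η : P.ring →+* k, η = FF.ev hK P := ⟨_, rfl⟩
  have hηρ : ∀ a, η (ρ a) = a := by
    intro a
    have : ρ a = ⟨algebraMap k K a, P.algebraMap_mem _⟩ := Subtype.ext (hρ _)
    rw [this, hη, FF.ev_algebraMap]
  have hspec : ∀ z : P.ring, (z : K) - algebraMap k K (η z) ∈ P.ring.nonunits := fun z => by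
    rw [hη]; exact FF.ev_spec hK P z
  have hψi : Function.Injective ψ := fun a b hab => by
    rw [hψ, hψ] at hab
    exact Subtype.ext hab
  obtain ⟨Q', hQ'⟩ : ∃ Q' : Fin 3 → Matrix (Fin 3) (Fin 3) P.ring, Q' = fun i => (D.Q i).map ρ := ⟨_, rfl⟩
  have e1 : (fun i => (Q' i).map ψ) = ext K D.Q := by
    funext i
    ext a b
    simp [hQ', ext, hψ, hρ]
  have e2 : (fun i => (Q' i).map η) = D.Q := by
    funext i
    ext a b
    simp only [hQ', Matrix.map_apply, hηρ]
  have e3 : (fun j => ψ (f j)) = fun j => c * D.e j := by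
    funext j
    rw [hψ, hf]
  have hd' : dl Q' f = 0 := by
    apply hψi
    rw [dl_map, e1, e3, dl_smul, D.dl_e, mul_zero, map_zero]
  have hdev : dl D.Q (fun j => η (f j)) = 0 := by
    have h2 := dl_map η Q' f
    rw [hd', map_zero, e2] at h2
    exact h2.symm
  have hfj : f j₀ = 1 := Subtype.ext (by rw [hf, hj₀]; rfl)
  have he0 : (fun j => η (f j)) ≠ 0 := by
    intro h2
    have h3 := congrFun h2 j₀
    simp only [hfj, map_one, Pi.zero_apply] at h3
    exact one_ne_zero h3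
  -- the vector v
  have hqmψ : (qm Q' f).map ψ = c • qm (ext K D.Q) D.e := by
    rw [qm_map ψ Q' f, e1, e3, qm_smul]
  have hadjψ : ∀ a b, ψ ((qm Q' f).adjugate a b) = c ^ 2 * (qm (ext K D.Q) D.e).adjugate a b := by
    intro a b
    have h5 : (qm Q' f).adjugate.map ψ = (c • qm (ext K D.Q) D.e).adjugate := by
      rw [← hqmψ]
      exact RingHom.map_adjugate ψ (qm Q' f)
    rw [Matrix.adjugate_smul, Fintype.card_fin] at h5
    have h6 := congrFun (congrFun h5 a) b
    rw [Matrix.map_apply, Matrix.smul_apply, smul_eq_mul] at h6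
    exact h6
  have hvP : ∀ a, c * D.v a ∈ P.ring := by
    intro a
    have hint : IsIntegral P.ring (c * D.v a) := by
      obtain ⟨r, hr⟩ : ∃ r : P.ring, r = 4 * (qm Q' f).adjugate a a := ⟨_, rfl⟩
      have hrψ : ψ r = 4 * (c ^ 2 * (qm (ext K D.Q) D.e).adjugate a a) := by
        rw [hr, map_mul, hadjψ, map_ofNat]
      refine ⟨Polynomial.X ^ 2 + Polynomial.C r, by monicity!, ?_⟩
      have hm : ∀ z : P.ring, algebraMap P.ring K z = ψ z := fun z => (hψ z).symm
      simp only [Polynomial.eval₂_add, Polynomial.eval₂_pow, Polynomial.eval₂_X, Polynomial.eval₂_C, hm, hrψ]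
      linear_combination c ^ 2 * D.vv a a
    obtain ⟨z, hz⟩ := IsIntegrallyClosed.algebraMap_eq_of_integral hint
    rw [← hz]
    exact z.2
  obtain ⟨g, hg⟩ : ∃ g : Fin 3 → P.ring, ∀ j, ψ (g j) = c * D.v j := ⟨fun j => ⟨_, hvP j⟩, fun j => hψ _⟩
  have hgg : ∀ a b, g a * g b = - 4 * (qm Q' f).adjugate a b := by
    intro a b
    apply hψi
    rw [map_mul, hg, hg, map_mul, hadjψ, map_neg, map_ofNat]
    linear_combination c ^ 2 * D.vv a b
  obtain ⟨W, hW⟩ : ∃ W : Matrix (Fin 3) (Fin 3) P.ring, W = fun a b => qm Q' f a b + cmx g a b * ρ (1 / 2) := ⟨_, rfl⟩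
  have hWψ : ∀ a b, ψ (W a b) = c * (D.m a * D.l b) := by
    intro a b
    have h1 := congrFun (congrFun hqmψ a) b
    rw [Matrix.map_apply, Matrix.smul_apply, smul_eq_mul] at h1
    have h2 := cmx_map ψ g a b
    have h3 : (fun j => ψ (g j)) = fun j => c * D.v j := funext hg
    rw [h3, cmx_smul] at h2
    rw [hW, map_add, map_mul, h1, h2, hψ, hρ, map_div₀, map_one, map_ofNat, ← D.mat a b]
    ring
  obtain ⟨cm, hcm0, hcmP, a₀, ha₀⟩ := exists_prim hK P D.m D.m_ne
  obtain ⟨M, hM⟩ : ∃ M : Fin 3 → P.ring, ∀ j, (M j : K) = cm * D.m j := ⟨fun j => ⟨_, hcmP j⟩, fun j => rfl⟩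
  obtain ⟨L, hL⟩ : ∃ L : Fin 3 → P.ring, ∀ j, L j = W a₀ j := ⟨_, fun _ => rfl⟩
  have hLK : ∀ j, (L j : K) = c / cm * D.l j := by
    intro j
    rw [hL, ← hψ, hWψ]
    have h1 : D.m a₀ = cm⁻¹ := by
      rw [← mul_right_inj' hcm0, ha₀, mul_inv_cancel₀ hcm0]
    rw [h1]
    ring
  have hML : ∀ a b, M a * L b = W a b := by
    intro a b
    apply hψi
    rw [map_mul, hWψ, hψ, hψ, hM, hLK]
    field_simp
  have hMa : M a₀ = 1 := Subtype.ext (by rw [hM, ha₀]; rfl)
  -- reductions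
  have hη2 : η (ρ (1 / 2)) = 1 / 2 := hηρ _
  have hWη : ∀ a b, qm D.Q (fun j => η (f j)) a b + cmx (fun j => η (g j)) a b / 2 = η (M a) * η (L b) := by
    intro a b
    have h1 := congrFun (congrFun (qm_map η Q' f) a) b
    rw [Matrix.map_apply, e2] at h1
    rw [← map_mul, hML, hW, map_add, map_mul, hη2, h1, cmx_map]
    ring
  have hv0 : (fun j => η (g j)) ≠ 0 := by
    intro h2
    obtain ⟨j, hj⟩ := exists_adj D.hQ _ he0 hdev
    apply hj
    have h3 := congrArg η (hgg j j)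
    have h4 := congrFun h2 j
    simp only [Pi.zero_apply] at h4
    have h5 : (qm D.Q (fun j => η (f j))).adjugate = (qm Q' f).adjugate.map η := by
      have h4 := qm_map η Q' f
      rw [e2] at h4
      rw [← h4]
      exact (RingHom.map_adjugate η (qm Q' f)).symm
    rw [map_mul, h4, zero_mul, map_mul, map_neg, map_ofNat] at h3
    rw [h5, Matrix.map_apply]
    have h6 : (4 : k) ≠ 0 := by norm_num
    have h7 : (4 : k) * η ((qm Q' f).adjugate j j) = 0 := by linear_combination h3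
    exact (mul_eq_zero.mp h7).resolve_left h6
  have hsymk : ∀ a b, qm D.Q (fun j => η (f j)) a b = qm D.Q (fun j => η (f j)) b a := fun a b =>
    congrFun (congrFun (qm_symm D.Q D.hQ.1 (fun j => η (f j))) b) a
  obtain ⟨hl0, hm0⟩ := lm_ne hsymk hv0 hWη
  exact ⟨{
    c := c
    cl := c / cm
    cm := cm
    hc := (div_mul_cancel₀ _ hcm0).symm
    cl0 := div_ne_zero hc0 hcm0
    cm0 := hcm0
    e := fun j => η (f j)
    v := fun j => η (g j)
    l := fun j => η (L j)
    m := fun j => η (M j)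
    e0 := he0
    v0 := hv0
    l0 := hl0
    m0 := hm0
    re := fun j => by rw [← hf]; exact hspec _
    rv := fun j => by rw [← hg, hψ]; exact hspec _
    rl := fun j => by rw [← hLK]; exact hspec _
    rm := fun j => by rw [← hM]; exact hspec _
    dl0 := hdev
    rel := (rel_iff _ _ _ _).mpr hWη }⟩

end red

end Pool.Agent.NT28
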